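import Pool.Agent.N809.D21.Main
import Pool.Agent.N875.P17.Fin

/-!
# The base curves of conductor 17 and 21

`sg_one`: after `Pool.Agent.N875.K17.Sel` (helper875); `fin21`: after `Pool.Agent.N973.P21G.Fo`
(helper973).
-/

set_option autoImplicit false

open Finset

namespace Pool.Agent.N970.AVP

open Pool.Agent.N875.X15 (PR Fin2)

/-- the criterion of level 17 for `m = 1` -/
theorem sg_one : Pool.Agent.N875.P17.Sg 1 := by
  intro x y _ _ _ p hp
  exfalso
  have : PR 1 = ∅ := by
    unfold PR
    simp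
  rw [this] at hp
  exact absurd hp (Finset.notMem_empty p)

/-- **the curve of conductor `17` has finitely many rational points and `Ш[2] = 0`** -/
theorem one17 : Fin2 (Pool.Agent.N875.P17.WS 1) :=
  (Pool.Agent.N875.P17.desc squarefree_one sg_one).2.1

section

open Pool.Agent.N809.D21 (Wp Up exists_WU sol_of_loc fin2_of_sel)
open Pool.Agent.N809.D21 (EQm)
open Pool.Agent.TH841.SH (LocC SelG)

lemma PR_one : PR 1 = ∅ := by
  unfold PR
  rw [if_pos (by norm_num)]
  simp

/-- **`X_0(21)` has finitely many rational points and `Ш[2] = 0`.** -/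
theorem fin21 : Fin2 (EQm 1) := by
  classical
  have hs : Squarefree (1 : ℤ) := squarefree_one
  let f : ZMod 2 × ZMod 2 → ℤ × ℤ := fun t =>
    (Wp 1 (fun _ => 0) t.1 t.2, Up 1 (fun _ => 0) (t.1 + t.2) t.1)
  have hsub : SelG 0 (9 * 1) (-7 * 1) ⊆ Set.range f := by
    rintro ⟨w, u⟩ h
    obtain ⟨x, y, s, a, c, h1, h2, a0, c0⟩ := exists_WU (m := 1) hs (by simpa using h)
    obtain ⟨hw, hu, hR, hp⟩ := h
    simp only at hw hu hR hp
    subst h1 h2
    have hsol := sol_of_loc (m := 1) hs a0 c0 hw (by simpa using hR) (fun p _ => by simpa using hp p)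
    have h3 := hsol.sgn (by norm_num)
    rw [PR_one, Finset.sum_empty, zero_add] at h3
    refine ⟨(a, c), ?_⟩
    have h4 : s = a + c := by
      have h20 : (2 : ZMod 2) = 0 := rfl
      linear_combination h3 - (a + c) * h20
    show (Wp 1 (fun _ => 0) a c, Up 1 (fun _ => 0) (a + c) a) = _
    unfold Wp Up
    rw [PR_one, h4]
    simp
  have hfr : (Set.range f).Finite := Set.finite_range f
  refine fin2_of_sel (m := 1) hs (hfr.subset hsub) ?_
  refine (Set.ncard_le_ncard hsub hfr).trans ?_
  rw [← Set.image_univ]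
  refine (Set.ncard_image_le Set.finite_univ).trans ?_
  rw [Set.ncard_univ, Nat.card_eq_fintype_card]
  rfl

theorem one21 : Fin2 (Pool.Agent.N809.D21.WS 1) :=
  (Pool.Agent.N809.D21.fin2_S one_ne_zero).2 fin21

end

end Pool.Agent.N970.AVP
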