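import Pool.Agent.N970.AVP.Main
import Pool.Agent.R390.NoInv
import Pool.Agent.Y667.BKP.Main

/-!
# Products of twists of the three curves over multiquadratic fields: the Bloch-Kato Selmer groups
-/

set_option autoImplicit false

open NumberField IsDedekindDomain Filter

namespace Pool.Agent.N970.AVP

open Pool.Agent.TH841.SH.D (Gal act)
open Pool.Agent.Y667.BKP (H1f PSeq IsV)
open Pool.Agent.N919.BS (Fund)

/-- `H⁰(F, V_2 W) = 0`: the elements of `V_2 W` that are fixed by the Galois group are zero -/
def NoInvariants {F : Type} [Field F] (W : WeierstrassCurve F) : Prop :=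
  ∀ x : PSeq W, IsV 2 W x → (∀ (σ : Gal F) (n : ℕ), act W σ.toAlgHom (x n) = x n) → ∀ n, x n = 0

/-- the order of vanishing formula at `p = 2`, with both sides zero -/
def OrderFormula {ι : Type} [Fintype ι] (K : Type) [Field K] [NumberField K] (j : ι → Fin 3)
    (e : ι → ℤ) (D : ℤ) : Prop :=
  (∃ F : ℂ → ℂ, IsL K j e D F) ∧ (∀ F : ℂ → ℂ, IsL K j e D F → analyticOrderAt F 1 = 0) ∧
    ∀ i, NoInvariants (E K (j i) (e i)) ∧ ∀ x : H1f 2 (E K (j i) (e i)), x = 0

/-- **the order of vanishing formula for good products** -/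
theorem formula {ι : Type} [Fintype ι] {r : ℕ} {d : Fin r → ℤ} (hi : Independent d)
    {j : ι → Fin 3} {e : ι → ℤ} (he : ∀ i, e i ≠ 0) (hg : Good d j e) (K : Type) [Field K]
    [NumberField K] (hK : IsMultiquadratic d K) :
    Module.finrank ℚ K = 2 ^ r ∧ OrderFormula K j e (∏ t, d t) := by
  classical
  obtain ⟨h0, hfin, hrk, hL, hord, hsha⟩ := bsd hi he hg K hK
  refine ⟨h0, hL, fun F hF => ?_, fun i => ?_⟩
  · rw [hord F hF, hrk]
    rfl
  · have hf : Finite (E K (j i) (e i)).toAffine.Point := by
      have hfin' : Finite (∀ i, (E K (j i) (e i)).toAffine.Point) := hfin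
      exact Finite.of_surjective (fun P : (∀ i, (E K (j i) (e i)).toAffine.Point) => P i)
        (Function.surjective_eval i)
    exact ⟨fun x hx hfix => Pool.Agent.R390.noinv hf x hx hfix,
      Pool.Agent.Y667.BKP.h1f_zero Nat.prime_two hf r (hsha i).2⟩

/-- the number of the quadratic fields of discriminant at most `X` over which the formula holds -/
theorem quad {ι : Type} [Fintype ι] {j : ι → Fin 3} {D : ℤ} (hD : Fund D) (h1 : D ≠ 1)
    (hg : Good (fun _ : Fin 1 => D) j (fun _ => 1)) (K : Type) [Field K] [NumberField K]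
    (h2 : Module.finrank ℚ K = 2) (hs : ∃ x : K, x ^ 2 = (D : K)) :
    OrderFormula K j (fun _ => 1) D := by
  have hi : Independent (fun _ : Fin 1 => D) := by
    intro T hT
    have : T = {0} := by
      ext t
      have ht : t = 0 := Subsingleton.elim _ _
      subst ht
      simp only [Finset.mem_singleton, iff_true]
      obtain ⟨u, hu⟩ := hT
      have : u = 0 := Subsingleton.elim _ _
      rwa [this] at hu
    rw [this, Finset.prod_singleton]
    rintro ⟨a, ha⟩
    rcases hD with ⟨h3, h4⟩ | ⟨m, rfl, h3, h4⟩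
    · have h5 := h3 a ⟨1, by rw [mul_one, ha]⟩
      rcases Int.isUnit_iff.1 h5 with rfl | rfl <;> exact h1 (by rw [ha]; norm_num)
    · have h6 : (2 : ℤ) ∣ a := by
        have : (2 : ℤ) ∣ a * a := ⟨2 * m, by rw [← ha]; ring⟩
        rcases Int.prime_two.dvd_or_dvd this with h | h <;> exact h
      obtain ⟨b, rfl⟩ := h6
      have h7 : m = b * b := by
        have : 4 * m = 4 * (b * b) := by rw [ha]; ring
        omega
      have h5 := h3 b ⟨1, by rw [mul_one, h7]⟩
      rcases Int.isUnit_iff.1 h5 with rfl | rfl <;> omega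
  obtain ⟨x, hx⟩ := hs
  have hK : IsMultiquadratic (fun _ : Fin 1 => D) K := by
    refine ⟨fun _ => x, fun _ => hx, ?_⟩
    have hx' : x ∉ (⊥ : IntermediateField ℚ K) := by
      intro hmem
      obtain ⟨q, hq⟩ := IntermediateField.mem_bot.1 hmem
      have hq2 : q ^ 2 = (D : ℚ) := by
        have h3 : (algebraMap ℚ K) (q ^ 2) = (algebraMap ℚ K) (D : ℚ) := by
          rw [map_pow, hq, hx, map_intCast]
        exact (algebraMap ℚ K).injective h3
      have h4 : IsSquare (D : ℚ) := ⟨q, by rw [← hq2, sq]⟩
      have h5 : IsSquare D := by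
        have := Rat.isSquare_intCast_iff.1 h4
        exact this
      exact hi {0} (Finset.singleton_nonempty 0) (by rw [Finset.prod_singleton]; exact h5)
    have hr : Set.range (fun _ : Fin 1 => x) = {x} := by
      ext y
      simp
    rw [hr]
    have h7 : (IntermediateField.adjoin ℚ {x} : IntermediateField ℚ K) ≠ ⊥ := by
      intro h8
      exact hx' (h8 ▸ IntermediateField.mem_adjoin_simple_self ℚ x)
    have h8 : Module.finrank ℚ (IntermediateField.adjoin ℚ {x} : IntermediateField ℚ K) = 2 := by
      have h9 : Module.finrank ℚ (IntermediateField.adjoin ℚ {x} : IntermediateField ℚ K) *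
          Module.finrank (IntermediateField.adjoin ℚ {x} : IntermediateField ℚ K) K = 2 := by
        rw [Module.finrank_mul_finrank, h2]
      have h10 : Module.finrank ℚ (IntermediateField.adjoin ℚ {x} : IntermediateField ℚ K) ∣ 2 :=
        ⟨_, h9.symm⟩
      rcases (Nat.dvd_prime Nat.prime_two).1 h10 with h | h
      · exact absurd (IntermediateField.finrank_eq_one_iff.1 h) h7
      · exact h
    refine IntermediateField.eq_of_le_of_finrank_eq le_top ?_
    rw [h8, IntermediateField.finrank_top', h2]
  have h9 := (formula hi (fun _ => one_ne_zero) hg K hK).2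
  rwa [Finset.prod_const, Finset.card_univ, Fintype.card_fin, pow_one] at h9

end Pool.Agent.N970.AVP
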