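import Pool.Agent.N970.AVP.Dens
import Pool.Agent.N916.AM.Fd
import Pool.Agent.N969.P15.QF
import Pool.Agent.N875.X15.ClE

/-!
# Products of twists of `X_0(15)` and `X_0(21)` over imaginary quadratic fields: ideal classes of
order four

Adapted from `Conductor15`, `Conductor21` of problem `MP_696deb_nt`.
-/

set_option autoImplicit false

open Finset Filter

namespace Pool.Agent.N970.AVP

open Pool.Agent.N919.BS (NS NF Fund core)
open Pool.Agent.N916.TE (FD Go)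

/-- the local conditions on the quadratic field of discriminant `D` for the curve number `j`: `3` is not
inert and `5` is not split for `X_0(15)`, `3` is not split and `7` is not inert for `X_0(21)` -/
def Allowed : Fin 3 → ℤ → Prop :=
  ![fun D => D % 3 ≠ 2 ∧ ¬ (D % 5 = 1 ∨ D % 5 = 4), fun _ => False,
    fun D => D % 3 ≠ 1 ∧ ¬ (D % 7 = 3 ∨ D % 7 = 5 ∨ D % 7 = 6)]

/-- the ideal class group of `ℚ(√D)` has no element of order four -/
def NoOrderFour (D : ℤ) : Prop :=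
  ∀ (K : Type) [Field K] [NumberField K], Module.finrank ℚ K = 2 →
    (∃ s : K, s ^ 2 = (D : K)) →
    ∀ c : ClassGroup (NumberField.RingOfIntegers K), c ^ 4 = 1 → c ^ 2 = 1

theorem al0 (D : ℤ) : Allowed 0 D ↔ D % 3 ≠ 2 ∧ ¬ (D % 5 = 1 ∨ D % 5 = 4) := Iff.rfl

theorem al1 (D : ℤ) : ¬ Allowed 1 D := fun h => h

theorem al2 (D : ℤ) : Allowed 2 D ↔ D % 3 ≠ 1 ∧ ¬ (D % 7 = 3 ∨ D % 7 = 5 ∨ D % 7 = 6) := Iff.rfl

theorem neg5 (k : ℕ) : ¬ ((-(k : ℤ)) % 5 = 1 ∨ (-(k : ℤ)) % 5 = 4) ↔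
    (k % 5 = 0 ∨ k % 5 = 2 ∨ k % 5 = 3) := by
  have h : k % 5 < 5 := Nat.mod_lt _ (by norm_num)
  interval_cases h7 : k % 5 <;> omega

theorem neg7 (k : ℕ) :
    ¬ ((-(k : ℤ)) % 7 = 3 ∨ (-(k : ℤ)) % 7 = 5 ∨ (-(k : ℤ)) % 7 = 6) ↔
      (k % 7 = 0 ∨ k % 7 = 3 ∨ k % 7 = 5 ∨ k % 7 = 6) := by
  have h : k % 7 < 7 := Nat.mod_lt _ (by norm_num)
  interval_cases h7 : k % 7 <;> omega

/-- the squarefree integer `d` with `ℚ(√d) = ℚ(√-n)` -/
def mD (n : ℕ) : ℤ := if n % 2 = 1 then -(n : ℤ) else -((n / 4 : ℕ) : ℤ)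

theorem fund_neg {n : ℕ} : Fund (-(n : ℤ)) ↔ FD n := by
  have sq : ∀ d : ℤ, Squarefree (-d) ↔ Squarefree d := fun d => by
    unfold Squarefree
    simp only [dvd_neg]
  unfold Pool.Agent.N919.BS.Fund Pool.Agent.N916.TE.FD
  constructor
  · rintro (⟨h1, h2⟩ | ⟨m, h1, h2, h3⟩)
    · left
      exact ⟨Int.squarefree_natCast.1 ((sq _).1 h1), by omega⟩
    · right
      refine ⟨m.natAbs, by omega, Int.squarefree_natAbs.2 h2, by omega⟩
  · rintro (⟨h1, h2⟩ | ⟨k, rfl, h2, h3⟩)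
    · left
      exact ⟨(sq _).2 (Int.squarefree_natCast.2 h1), by omega⟩
    · right
      exact ⟨-(k : ℤ), by push_cast; ring, (sq _).2 (Int.squarefree_natCast.2 h2), by omega⟩

theorem core_neg {n : ℕ} (h : FD n) : core (-(n : ℤ)) = mD n := by
  unfold Pool.Agent.N919.BS.core mD
  rcases h with ⟨h1, h4⟩ | ⟨k, rfl, h1, -⟩
  · rw [if_pos (by omega), if_pos (by omega)]
  · rw [if_neg (by omega), if_neg (by omega)]
    omega

theorem rank_go {j : Fin 3} {n : ℕ} (h : FD n) (ha : Allowed j (-(n : ℤ))) :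
    RankZeroShaTwo j (-(n : ℤ)) ↔ Go n := by
  have hF : Fund (-(n : ℤ)) := fund_neg.2 h
  rw [rz_core j hF, core_neg h, rz_iff]
  rcases h with ⟨hsq, h4⟩ | hE
  · have ho : n % 2 = 1 := by omega
    have em : mD n = -(n : ℤ) := if_pos ho
    rw [em]
    fin_cases j
    · obtain ⟨h3, h5⟩ := (al0 _).1 ha
      rw [neg5] at h5
      refine (Pool.Agent.N875.X15.crit_ao_S (n := n) ⟨hsq, h4, by omega, h5⟩).trans ?_
      exact ⟨fun h => ⟨fun _ => h, fun h2 => by omega⟩, fun h => h.1 ho⟩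
    · exact (al1 _ ha).elim
    · obtain ⟨h3, h5⟩ := (al2 _).1 ha
      rw [neg7] at h5
      refine (Pool.Agent.N637.P21.crit_ao_S (n := n) ⟨hsq, h4, by omega, h5⟩).trans ?_
      exact ⟨fun h => ⟨fun _ => h, fun h2 => by omega⟩, fun h => h.1 ho⟩
  · have ho : n % 2 = 0 := by
      obtain ⟨k, rfl, -⟩ := hE
      omega
    have em : mD n = -((n / 4 : ℕ) : ℤ) := if_neg (by omega)
    rw [em]
    fin_cases j
    · obtain ⟨h3, h5⟩ := (al0 _).1 ha
      rw [neg5] at h5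
      refine (Pool.Agent.N875.X15.crit_ae_S (n := n) ⟨hE, by omega, h5⟩).trans ?_
      exact ⟨fun h => ⟨fun h2 => by omega, fun _ => h⟩, fun h => h.2 ho⟩
    · exact (al1 _ ha).elim
    · obtain ⟨h3, h5⟩ := (al2 _).1 ha
      rw [neg7] at h5
      refine (Pool.Agent.N637.P21.crit_ae_S (n := n) ⟨hE, by omega, h5⟩).trans ?_
      exact ⟨fun h => ⟨fun h2 => by omega, fun _ => h⟩, fun h => h.2 ho⟩

theorem class_go {n : ℕ} (h : FD n) (hn4 : n ≠ 4) : NoOrderFour (-(n : ℤ)) ↔ Go n := by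
  have h0 : 0 < n := by
    rcases h with ⟨h1, h4⟩ | ⟨k, rfl, h1, -⟩
    · omega
    · have := Nat.pos_of_ne_zero h1.ne_zero
      omega
  have key : ∀ (K : Type) [Field K] [NumberField K], Module.finrank ℚ K = 2 →
      (∃ s : K, s ^ 2 = -(n : K)) →
      ((∀ c : ClassGroup (NumberField.RingOfIntegers K), c ^ 4 = 1 → c ^ 2 = 1) ↔ Go n) := by
    intro K _ _ h6 h7
    rcases h with ⟨hsq, h4⟩ | hE
    · have ho : n % 2 = 1 := by omega
      rw [Pool.Agent.N875.X15.qc_iff_class hsq h4 K h6 h7, ← Pool.Agent.N875.X15.qc_P15 h0.ne']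
      exact ⟨fun h => ⟨fun _ => h, fun h2 => by omega⟩, fun h => h.1 ho⟩
    · have ho : n % 2 = 0 := by
        obtain ⟨k, rfl, -⟩ := hE
        omega
      have h8 : ∃ s : K, s ^ 2 = -((n / 4 : ℕ) : K) := by
        obtain ⟨k, rfl, -⟩ := hE
        obtain ⟨s, hs⟩ := h7
        refine ⟨s / 2, ?_⟩
        have e4 : 4 * k / 4 = k := by omega
        rw [e4, div_pow, hs]
        push_cast
        ring
      rw [Pool.Agent.N875.X15.qe_iff_class hE hn4 K h6 h8]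
      exact ⟨fun h => ⟨fun h2 => by omega, fun _ => h⟩, fun h => h.2 ho⟩
  have cast : ∀ (K : Type) [Field K], (((-(n : ℤ)) : ℤ) : K) = -(n : K) := fun K _ => by
    push_cast
    rfl
  constructor
  · intro h8
    obtain ⟨K, i1, i2, h6, h7⟩ := Pool.Agent.N969.P15.exists_qf (n := n) h0
    exact (key K h6 h7).1 (h8 K h6 (by rw [cast K]; exact h7))
  · intro h8 K i1 i2 h6 h7
    rw [cast K] at h7
    exact (key K h6 h7).2 h8

/-- **the criterion** -/
theorem good_class {ι : Type} [Nonempty ι] {j : ι → Fin 3} {D : ℤ} (hD : Fund D) (h0 : D < 0)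
    (ha : ∀ i, Allowed (j i) D) :
    Good (fun _ : Fin 1 => D) j (fun _ => 1) ↔ NoOrderFour D := by
  obtain ⟨n, rfl⟩ : ∃ n : ℕ, D = -(n : ℤ) := ⟨D.natAbs, by omega⟩
  have hF := fund_neg.1 hD
  obtain ⟨i0⟩ := ‹Nonempty ι›
  have hn4 : n ≠ 4 := by
    rintro rfl
    have := ha i0
    generalize j i0 = x at this
    fin_cases x
    · exact absurd ((al0 _).1 this).1 (by norm_num)
    · exact al1 _ this
    · exact absurd ((al2 _).1 this).2 (by norm_num)
  rw [good_quad, class_go hF hn4]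
  simp only [one_mul]
  constructor
  · intro h
    exact (rank_go hF (ha i0)).1 (h i0).2
  · intro h i
    exact ⟨rz_one _, (rank_go hF (ha i)).2 h⟩

open Classical in
/-- the residues modulo `105` -/
noncomputable def RR {ι : Type} (j : ι → Fin 3) : Finset ℕ :=
  (range 105).filter fun a => ∀ i, Allowed (j i) (-(a : ℤ))

theorem al_mod (x : Fin 3) (n : ℕ) : Allowed x (-((n % 105 : ℕ) : ℤ)) ↔ Allowed x (-(n : ℤ)) := by
  fin_cases x
  · show Allowed 0 _ ↔ Allowed 0 _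
    rw [al0, al0]
    omega
  · exact Iff.rfl
  · show Allowed 2 _ ↔ Allowed 2 _
    rw [al2, al2]
    omega

theorem mem_RR {ι : Type} (j : ι → Fin 3) (n : ℕ) :
    n % 105 ∈ RR j ↔ ∀ i, Allowed (j i) (-(n : ℤ)) := by
  classical
  unfold RR
  rw [mem_filter, mem_range]
  constructor
  · rintro ⟨-, h⟩ i
    exact (al_mod _ _).1 (h i)
  · intro h
    exact ⟨Nat.mod_lt _ (by norm_num), fun i => (al_mod _ _).2 (h i)⟩

theorem countQuad_neg {P : ℤ → Prop} {Q : ℕ → Prop} [DecidablePred fun n => FD n ∧ Q n]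
    (h0 : ∀ D, P D → D < 0) (hPQ : ∀ n : ℕ, FD n → (P (-(n : ℤ)) ↔ Q n)) (X : ℕ) :
    countQuad P X = ((Icc 1 X).filter fun n => FD n ∧ Q n).card := by
  classical
  unfold countQuad
  symm
  refine card_bij (fun n _ => -(n : ℤ)) ?_ ?_ ?_
  · intro n hn
    obtain ⟨h1, h2, h3⟩ := mem_filter.1 hn
    rw [mem_Icc] at h1
    exact mem_filter.2 ⟨mem_Icc.2 ⟨by omega, by omega⟩, fund_neg.2 h2, by omega,
      (hPQ n h2).2 h3⟩
  · intro a _ b _ h
    omega
  · intro D hD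
    obtain ⟨h1, h2, -, h3⟩ := mem_filter.1 hD
    rw [mem_Icc] at h1
    have h5 := h0 _ h3
    obtain ⟨n, rfl⟩ : ∃ n : ℕ, D = -(n : ℤ) := ⟨D.natAbs, by omega⟩
    have h6 := fund_neg.1 h2
    exact ⟨n, mem_filter.2 ⟨mem_Icc.2 ⟨by omega, by omega⟩, h6, (hPQ n h6).1 h3⟩, rfl⟩

/-- **the density of the good products over the imaginary quadratic fields of the family** -/
theorem dens_class {ι : Type} [Nonempty ι] {j : ι → Fin 3} (hj : ∀ i, j i ≠ 1) :
    Tendsto (fun X : ℕ => (countQuad (fun D => (D < 0 ∧ ∀ i, Allowed (j i) D) ∧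
      Good (fun _ : Fin 1 => D) j (fun _ => 1)) X : ℝ) /
      (countQuad (fun D => D < 0 ∧ ∀ i, Allowed (j i) D) X : ℝ)) atTop
      (nhds (∏' i : ℕ, (1 - (1 / 2 : ℝ) ^ (i + 1)))) := by
  classical
  have h3 : 3 % 105 ∈ RR j := by
    rw [mem_RR]
    intro i
    have := hj i
    generalize j i = x at this
    fin_cases x
    · exact (al0 _).2 ⟨by norm_num, by norm_num⟩
    · exact absurd rfl this
    · exact (al2 _).2 ⟨by norm_num, by norm_num⟩
  have h := Pool.Agent.N916.AM.density_mod (m := 105) (by norm_num) (R := RR j) (n₀ := 3)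
    Nat.prime_three.squarefree (by norm_num) h3
  unfold Pool.Agent.N916.GB.eta at h
  have neg : ∀ n : ℕ, FD n → (-(n : ℤ)) < 0 := by
    rintro n (⟨h1, h4⟩ | ⟨k, rfl, h1, -⟩)
    · omega
    · have := Nat.pos_of_ne_zero h1.ne_zero
      omega
  refine h.congr fun X => congrArg₂ (fun a b : ℕ => (a : ℝ) / (b : ℝ)) ?_ ?_
  · refine Eq.trans ?_ (countQuad_neg (Q := fun n => n % 105 ∈ RR j ∧ Go n) (fun D h => h.1.1)
      (fun n hn => ?_) X).symm
    · rfl
    have i0 : ι := Classical.arbitrary ι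
    constructor
    · rintro ⟨⟨h1, h2⟩, h4⟩
      refine ⟨(mem_RR j n).2 h2, ?_⟩
      have h5 := ((good_quad _ _ _).1 h4 i0).2
      rw [one_mul] at h5
      exact (rank_go hn (h2 i0)).1 h5
    · rintro ⟨h1, h2⟩
      have h4 := (mem_RR j n).1 h1
      refine ⟨⟨neg n hn, h4⟩, (good_quad _ _ _).2 fun i => ⟨rz_one _, ?_⟩⟩
      rw [one_mul]
      exact (rank_go hn (h4 i)).2 h2
  · refine Eq.trans ?_ (countQuad_neg (Q := fun n => n % 105 ∈ RR j) (fun D h => h.1)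
      (fun n hn => ⟨fun h => (mem_RR j n).2 h.2, fun h => ⟨neg n hn, (mem_RR j n).1 h⟩⟩) X).symm
    rfl

end Pool.Agent.N970.AVP
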