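import Pool.Agent.N970.AVP.Prod
import Pool.Agent.N970.AVP.One
import Pool.Agent.N916.PQ.Main15
import Pool.Agent.N916.PQ.Main21
import Pool.Agent.N969.Den.Close

/-!
# Products of twists of the three curves: the proportions
-/

set_option autoImplicit false

open Finset Filter

namespace Pool.Agent.N970.AVP

open Pool.Agent.N919.BS (NS NF Fund core)
open Pool.Agent.N969.Den (NS_close NF_close lim_close NS_top NF_top)
open Pool.Agent.N875.X15 (Fin2)

/-- the proportions -/
noncomputable def delta : Fin 3 → ℝ :=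
  ![(∏' i : ℕ, (1 - (1 / 2 : ℝ) ^ (i + 1))) / 2, (∏' i : ℕ, (1 - (1 / 2 : ℝ) ^ (2 * i + 1))) / 2,
    137 / 256 * ∏' i : ℕ, (1 - (1 / 2 : ℝ) ^ (i + 1))]

theorem crit (j : Fin 3) : ∃ Q : ℤ → Prop,
    (∀ d, Squarefree d → d ≠ 1 → d ≠ -1 → (Q d ↔ RankZeroShaTwo j d)) ∧
    Tendsto (fun X : ℕ => (NS Q X : ℝ) / (NS (fun _ => True) X : ℝ)) atTop (nhds (delta j)) ∧
    Tendsto (fun X : ℕ => (NF Q X : ℝ) / (NF (fun _ => True) X : ℝ)) atTop (nhds (delta j)) := by
  fin_cases j
  · refine ⟨Pool.Agent.N809.PQ.Sg15, fun d hs h1 h2 => ?_, Pool.Agent.N916.PQ.sf15,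
      Pool.Agent.N916.PQ.fd15⟩
    refine Iff.symm (((rz_iff 0 d).trans (Pool.Agent.N875.D15.fin2S_iff_sg15 hs)).trans ?_)
    simp [h1, h2]
  · refine ⟨fun d => Pool.Agent.N919.BS.Rt17 d ∧ Pool.Agent.N916.MO.G17 d, fun d hs _ _ => ?_,
      Pool.Agent.N916.MO.dens17_sf, Pool.Agent.N916.MO.dens17_fd⟩
    exact ((rz_iff 1 d).trans (Pool.Agent.N809.P17.fin2_all hs)).symm
  · refine ⟨Pool.Agent.N809.PQ.Sg21, fun d hs h1 _ => ?_, Pool.Agent.N916.PQ.L21.sf21,
      Pool.Agent.N916.PQ.L21.fd21⟩
    exact ((rz_iff 2 d).trans (Pool.Agent.N809.D21.fin2_iff hs h1)).symm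

/-- the base curves -/
theorem rz_one (j : Fin 3) : RankZeroShaTwo j 1 := by
  rw [rz_iff]
  fin_cases j
  · exact (Pool.Agent.N875.D15.fin2S_iff_sg15 squarefree_one).2 (Or.inr (Or.inl rfl))
  · exact one17
  · exact one21

/-- **the proportion among the squarefree integers** -/
theorem dens_sf (j : Fin 3) :
    Tendsto (fun X : ℕ => (NS (RankZeroShaTwo j) X : ℝ) / (NS (fun _ => True) X : ℝ)) atTop
      (nhds (delta j)) := by
  obtain ⟨Q, h1, h2, -⟩ := crit j
  exact lim_close h2 (fun X => NS_close h1 X)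
    (fun X => NS_close (fun d a b c => (h1 d a b c).symm) X) NS_top

/-- **the proportion among the fundamental discriminants** -/
theorem dens_fd (j : Fin 3) :
    Tendsto (fun X : ℕ => (NF (RankZeroShaTwo j) X : ℝ) / (NF (fun _ => True) X : ℝ)) atTop
      (nhds (delta j)) := by
  obtain ⟨Q, h1, -, h2⟩ := crit j
  exact lim_close h2 (fun X => NF_close h1 X)
    (fun X => NF_close (fun d a b c => (h1 d a b c).symm) X) NF_top

/-! ### random products over `ℚ` -/

open Classical in
/-- the number of the families `(e i)` of squarefree integers, `|e i| ≤ X`, with the property `P` -/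
noncomputable def countFam {ι : Type} [Fintype ι] (P : (ι → ℤ) → Prop) (X : ℕ) : ℕ :=
  ((Fintype.piFinset fun _ : ι => Icc (-(X : ℤ)) X).filter fun e =>
    (∀ i, Squarefree (e i)) ∧ P e).card

theorem countFam_prod {ι : Type} [Fintype ι] (P : ι → ℤ → Prop) (X : ℕ) :
    countFam (fun e : ι → ℤ => ∀ i, P i (e i)) X = ∏ i, NS (P i) X := by
  classical
  unfold countFam NS
  rw [← Fintype.card_piFinset]
  refine congrArg Finset.card (Finset.ext fun e => ?_)
  simp only [mem_filter, Fintype.mem_piFinset]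
  constructor
  · rintro ⟨h1, h2, h3⟩ i
    exact ⟨h1 i, h2 i, h3 i⟩
  · intro h
    exact ⟨fun i => (h i).1, fun i => (h i).2.1, fun i => (h i).2.2⟩

theorem good_rat {ι : Type} (d : Fin 0 → ℤ) (j : ι → Fin 3) (e : ι → ℤ) :
    Good d j e ↔ ∀ i, RankZeroShaTwo (j i) (e i) := by
  unfold Good
  refine forall_congr' fun i => ⟨fun h => ?_, fun h T => ?_⟩
  · have := h ∅
    rwa [Finset.prod_empty, mul_one] at this
  · have : T = ∅ := Finset.eq_empty_of_isEmpty T
    rw [this, Finset.prod_empty, mul_one]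
    exact h

/-- **the proportion of the good products over `ℚ`** -/
theorem dens_fam {ι : Type} [Fintype ι] (j : ι → Fin 3) :
    Tendsto (fun X : ℕ => (countFam (fun e : ι → ℤ => Good (Fin.elim0 : Fin 0 → ℤ) j e) X : ℝ) /
      (countFam (fun _ : ι → ℤ => True) X : ℝ)) atTop (nhds (∏ i, delta (j i))) := by
  have h := tendsto_finsetProd (s := (Finset.univ : Finset ι)) fun i _ => dens_sf (j i)
  refine h.congr fun X => ?_
  rw [prod_div_distrib]
  have e1 : countFam (fun e : ι → ℤ => Good (Fin.elim0 : Fin 0 → ℤ) j e) X =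
      ∏ i, NS (RankZeroShaTwo (j i)) X := by
    rw [← countFam_prod]
    congr 1
    funext e
    exact propext (good_rat _ _ _)
  have e2 : countFam (fun _ : ι → ℤ => True) X = ∏ i : ι, NS (fun _ => True) X := by
    rw [← countFam_prod]
    congr 1
    funext e
    exact propext ⟨fun _ _ => trivial, fun _ => trivial⟩
  rw [e1, e2]
  push_cast
  rfl

/-! ### random quadratic fields -/

open Classical in
/-- the number of the quadratic fields with a discriminant `D`, `|D| ≤ X`, which has the property `P` -/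
noncomputable def countQuad (P : ℤ → Prop) (X : ℕ) : ℕ :=
  ((Icc (-(X : ℤ)) X).filter fun D => Fund D ∧ D ≠ 1 ∧ P D).card

theorem fund_sq {D : ℤ} (h : Fund D) : Squarefree (core D) ∧ ∃ k : ℤ, k ≠ 0 ∧ D = core D * k ^ 2 := by
  rcases h with ⟨h1, h2⟩ | ⟨m, rfl, h1, h2⟩
  · unfold core
    rw [if_pos (by omega)]
    exact ⟨h1, 1, one_ne_zero, by ring⟩
  · unfold core
    rw [if_neg (by omega)]
    have : 4 * m / 4 = m := by omega
    rw [this]
    exact ⟨h1, 2, two_ne_zero, by ring⟩

theorem rz_core (j : Fin 3) {D : ℤ} (h : Fund D) : RankZeroShaTwo j D ↔ RankZeroShaTwo j (core D) := by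
  obtain ⟨h1, k, hk, e⟩ := fund_sq h
  conv_lhs => rw [e]
  exact rz_scale j h1.ne_zero hk

theorem good_quad {ι : Type} (D : ℤ) (j : ι → Fin 3) (e : ι → ℤ) :
    Good (fun _ : Fin 1 => D) j e ↔
      ∀ i, RankZeroShaTwo (j i) (e i) ∧ RankZeroShaTwo (j i) (e i * D) := by
  unfold Good
  refine forall_congr' fun i => ⟨fun h => ⟨?_, ?_⟩, fun h T => ?_⟩
  · have := h ∅
    rwa [Finset.prod_empty, mul_one] at this
  · have := h {0}
    rwa [Finset.prod_singleton] at this
  · rcases Finset.eq_empty_or_nonempty T with rfl | hT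
    · rw [Finset.prod_empty, mul_one]
      exact h.1
    · have : T = {0} := by
        ext t
        have ht : t = 0 := Subsingleton.elim _ _
        subst ht
        simp only [Finset.mem_singleton, iff_true]
        obtain ⟨u, hu⟩ := hT
        have : u = 0 := Subsingleton.elim _ _
        rwa [this] at hu
      rw [this, Finset.prod_singleton]
      exact h.2

theorem good_pow {ι : Type} [Nonempty ι] (D : ℤ) (j : Fin 3) :
    Good (fun _ : Fin 1 => D) (fun _ : ι => j) (fun _ => 1) ↔ RankZeroShaTwo j D := by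
  rw [good_quad]
  simp only [one_mul]
  constructor
  · intro h
    obtain ⟨i⟩ := ‹Nonempty ι›
    exact (h i).2
  · intro h _
    exact ⟨rz_one j, h⟩

theorem countQuad_close (P Q : ℤ → Prop) (h : ∀ D, Fund D → (P D ↔ Q (core D))) (X : ℕ) :
    NF Q X ≤ countQuad P X + 2 ∧ countQuad P X ≤ NF Q X + 2 := by
  classical
  unfold countQuad NF
  constructor
  · have h1 : ((Icc (-(X : ℤ)) X).filter fun D => Fund D ∧ Q (core D)) ⊆
        ((Icc (-(X : ℤ)) X).filter fun D => Fund D ∧ D ≠ 1 ∧ P D) ∪ {1} := by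
      intro D hD
      obtain ⟨h2, h3, h4⟩ := mem_filter.1 hD
      rw [mem_union, mem_singleton, mem_filter]
      by_cases e : D = 1
      · exact Or.inr e
      · exact Or.inl ⟨h2, h3, e, (h D h3).2 h4⟩
    refine (card_le_card h1).trans ((card_union_le _ _).trans ?_)
    rw [card_singleton]
    omega
  · refine (card_le_card fun D hD => ?_).trans (Nat.le_add_right _ 2)
    obtain ⟨h2, h3, h4, h5⟩ := mem_filter.1 hD
    exact mem_filter.2 ⟨h2, h3, (h D h3).1 h5⟩

/-- from the fundamental discriminants to the quadratic fields -/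
theorem lim_quad {P Q : ℤ → Prop} {c : ℝ} (h : ∀ D, Fund D → (P D ↔ Q (core D)))
    (hQ : Tendsto (fun X : ℕ => (NF Q X : ℝ) / (NF (fun _ => True) X : ℝ)) atTop (nhds c)) :
    Tendsto (fun X : ℕ => (countQuad P X : ℝ) / (countQuad (fun _ => True) X : ℝ)) atTop
      (nhds c) := by
  have h1 := lim_close hQ (fun X => (countQuad_close P Q h X).1) (fun X => (countQuad_close P Q h X).2)
    NF_top
  have hT := fun X => countQuad_close (fun _ => True) (fun _ => True) (fun D _ => Iff.rfl) X
  have h2 : Tendsto (fun X : ℕ => (countQuad (fun _ => True) X : ℝ) / (NF (fun _ => True) X : ℝ))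
      atTop (nhds 1) := by
    refine lim_close (A := NF fun _ => True) ?_ (fun X => (hT X).1) (fun X => (hT X).2) NF_top
    refine tendsto_const_nhds.congr' ?_
    filter_upwards [NF_top.eventually_gt_atTop 0] with X hX
    exact (div_self hX.ne').symm
  have h3 := h1.div h2 one_ne_zero
  rw [div_one] at h3
  refine h3.congr' ?_
  filter_upwards [NF_top.eventually_gt_atTop 0] with X hX
  show (countQuad P X : ℝ) / (NF (fun _ => True) X : ℝ) /
    ((countQuad (fun _ => True) X : ℝ) / (NF (fun _ => True) X : ℝ)) = _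
  rw [div_div_div_cancel_right₀ hX.ne']

/-- **the proportion of the quadratic fields over which a power of the curve is good** -/
theorem dens_quad {ι : Type} [Nonempty ι] (j : Fin 3) :
    Tendsto (fun X : ℕ => (countQuad
      (fun D => Good (fun _ : Fin 1 => D) (fun _ : ι => j) (fun _ => 1)) X : ℝ) /
      (countQuad (fun _ => True) X : ℝ)) atTop (nhds (delta j)) :=
  lim_quad (fun D hD => (good_pow D j).trans (rz_core j hD)) (dens_fd j)

end Pool.Agent.N970.AVP
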