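import Pool.Agent.N970.AVP.Tp
import Pool.Agent.N809.JT.Dnf
import Pool.Agent.N809.JT.Inpf

/-!
# The joint law of the three curves
-/

set_option autoImplicit false

namespace Pool.Agent.N970.AVP

open Pool.Agent.N919.BS (NS NF)
open Pool.Agent.N809.JT (Tot tot_sf tot_fd inp dn_ns dn_nf)

theorem totS : Tot NS := tot_sf inp dn_ns

theorem totF : Tot NF := tot_fd inp dn_nf

end Pool.Agent.N970.AVP
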