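import Pool.Agent.N970.AVP.Mt
import Pool.Agent.N970.AVP.TotI
import Pool.Agent.N969.Den.Root17

/-!
# The parity conjecture over `ℚ` for the twists of the three curves
-/

set_option autoImplicit false

open NumberField IsDedekindDomain Filter Topology

namespace Pool.Agent.N970.AVP

open Pool.Agent.N919.BS (NS NF Fund Rt17)
open Pool.Agent.N969.Den (NS_top NF_top)
open Pool.Agent.N809.PQ (w15 w21)

/-- the completed `L`-function for the conductor `N` -/
noncomputable def Lam (N : ℕ) (f : ℂ → ℂ) (s : ℂ) : ℂ :=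
  (N : ℂ) ^ (s / 2) * (2 * (Real.pi : ℂ)) ^ (-s) * Complex.Gamma s * f s

/-- `w` is the sign in the functional equation of `L(E, s)` -/
def IsRootNumber (E : WeierstrassCurve ℚ) (w : ℤ) : Prop :=
  ∃ (N : ℕ) (f : ℂ → ℂ) (M : Pr ℚ → WeierstrassCurve (𝓞 ℚ)), 0 < N ∧ Differentiable ℂ f ∧
    Minimal E M ∧ (∀ s : ℂ, 3 / 2 < s.re → f s = euler M s) ∧
    ∀ s : ℂ, 0 < s.re → s.re < 2 → Lam N f s = w * Lam N f (2 - s)

/-- the root number of the twist `C_{j, d}`, `d` squarefree: the product of the local root numbers -/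
noncomputable def rootNumber : Fin 3 → ℤ → ℤ :=
  ![fun d => (if d < 0 then -1 else 1) * (if d % 3 = 2 then -1 else 1) *
      (if d % 5 = 1 ∨ d % 5 = 4 then 1 else -1),
    fun d => (if d < 0 then -1 else 1) * (if jacobiSym d 17 = 1 then 1 else -1),
    fun d => (if d < 0 then -1 else 1) * (if d % 3 = 1 then 1 else -1) *
      (if d % 7 = 3 ∨ d % 7 = 5 ∨ d % 7 = 6 then -1 else 1)]

theorem rn0 (d : ℤ) : rootNumber 0 d = w15 d := rfl

theorem rn2 (d : ℤ) : rootNumber 2 d = w21 d := rfl

theorem rn1 (d : ℤ) : rootNumber 1 d = 1 ↔ Rt17 d := by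
  have e : rootNumber 1 d = (if d < 0 then -1 else 1) * (if jacobiSym d 17 = 1 then 1 else -1) := rfl
  rw [e]
  unfold Pool.Agent.N919.BS.Rt17
  rcases lt_trichotomy d 0 with h | h | h
  · rw [if_pos h]
    by_cases h1 : jacobiSym d 17 = 1
    · rw [if_pos h1]
      constructor
      · intro h2
        norm_num at h2
      · rintro (⟨h2, -⟩ | ⟨-, h2⟩)
        · omega
        · exact absurd h1 h2
    · rw [if_neg h1]
      exact ⟨fun _ => Or.inr ⟨h, h1⟩, fun _ => by norm_num⟩
  · subst h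
    have h1 : jacobiSym 0 17 = 0 := jacobiSym.zero_left (by norm_num)
    rw [h1]
    norm_num
  · rw [if_neg (by omega)]
    by_cases h1 : jacobiSym d 17 = 1
    · rw [if_pos h1]
      exact ⟨fun _ => Or.inl ⟨h, h1⟩, fun _ => by norm_num⟩
    · rw [if_neg h1]
      constructor
      · intro h2
        norm_num at h2
      · rintro (⟨-, h2⟩ | ⟨h2, -⟩)
        · exact absurd h2 h1
        · omega

theorem root_one (j : Fin 3) {d : ℤ} (hs : Squarefree d) (h : RankZeroShaTwo j d) :
    rootNumber j d = 1 := by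
  fin_cases j
  · change rootNumber 0 d = 1
    have h0 : RankZeroShaTwo 0 d := h
    rw [rn0]
    by_cases e1 : d = 1
    · subst e1
      norm_num [w15]
    by_cases e2 : d = -1
    · subst e2
      norm_num [w15]
    rcases (Pool.Agent.N875.D15.fin2S_iff_sg15 hs).1 ((rz_iff 0 d).1 h0) with h1 | h1 | h1
    · exact Pool.Agent.N809.PQ.sg15_parity hs e1 e2 h1
    · exact absurd h1 e1
    · exact absurd h1 e2
  · change rootNumber 1 d = 1
    have h0 : RankZeroShaTwo 1 d := h
    rw [rn1]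
    exact ((Pool.Agent.N809.P17.fin2_all hs).1 ((rz_iff 1 d).1 h0)).1
  · change rootNumber 2 d = 1
    have h0 : RankZeroShaTwo 2 d := h
    rw [rn2]
    by_cases e1 : d = 1
    · subst e1
      norm_num [w21]
    · exact Pool.Agent.N809.D21.parity hs e1 ((rz_iff 2 d).1 h0)

theorem independent_zero : Independent (Fin.elim0 : Fin 0 → ℤ) := by
  rintro T ⟨t, -⟩
  exact t.elim0

theorem multi_zero : IsMultiquadratic (Fin.elim0 : Fin 0 → ℤ) ℚ :=
  ⟨Fin.elim0, fun t => t.elim0, by
    rw [eq_top_iff]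
    intro x _
    exact IntermediateField.algebraMap_mem _ x⟩

/-- over `ℚ` -/
theorem rat (j : Fin 3) {d : ℤ} (hd : d ≠ 0) (h : RankZeroShaTwo j d) : RankPart (E ℚ j d) 0 :=
  (rankPart independent_zero j hd (fun T => by
    have : T = ∅ := Finset.eq_empty_of_isEmpty T
    rw [this, Finset.prod_empty, mul_one]
    exact h) ℚ multi_zero).2

theorem finrank_dec {K : Type} [Field K] (W : WeierstrassCurve K) (i1 i2 : DecidableEq K) :
    @Module.finrank ℤ W.toAffine.Point _
        (@AddCommGroup.toAddCommMonoid _ (@WeierstrassCurve.Affine.Point.instAddCommGroup K _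
          W.toAffine i1))
        (@AddCommGroup.toIntModule _ (@WeierstrassCurve.Affine.Point.instAddCommGroup K _
          W.toAffine i1)) =
      @Module.finrank ℤ W.toAffine.Point _
        (@AddCommGroup.toAddCommMonoid _ (@WeierstrassCurve.Affine.Point.instAddCommGroup K _
          W.toAffine i2))
        (@AddCommGroup.toIntModule _ (@WeierstrassCurve.Affine.Point.instAddCommGroup K _
          W.toAffine i2)) := by
  have e : i1 = i2 := Subsingleton.elim _ _
  rw [e]

open Classical in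
/-- the parity conjecture for `E` -/
def Parity (E : WeierstrassCurve ℚ) : Prop :=
  ∀ w : ℤ, IsRootNumber E w → (-1) ^ Module.finrank ℤ E.toAffine.Point = w

theorem parity_of {E : WeierstrassCurve ℚ} (h : RankPart E 0) : Parity E := by
  classical
  obtain ⟨-, h2, -, h4, -⟩ := h
  rintro w ⟨N, f, M, hN, hf, hM, hfM, hfe⟩
  have h5 := (h4 Set.univ f ⟨isOpen_univ, isConnected_univ, Set.mem_univ _, Set.subset_univ _,
    fun s _ => hf.analyticAt s, M, hM, hfM⟩).1
  have h6 := hfe 1 (by norm_num) (by norm_num)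
  have h7 : (2 : ℂ) - 1 = 1 := by norm_num
  rw [h7] at h6
  have h8 : Lam N f 1 ≠ 0 := by
    unfold Lam
    refine mul_ne_zero (mul_ne_zero (mul_ne_zero ?_ ?_) ?_) h5
    · exact (Complex.cpow_ne_zero_iff_of_exponent_ne_zero (by norm_num)).2
        (by exact_mod_cast hN.ne')
    · exact (Complex.cpow_ne_zero_iff_of_exponent_ne_zero (by norm_num)).2
        (mul_ne_zero two_ne_zero (by exact_mod_cast Real.pi_ne_zero))
    · exact Complex.Gamma_ne_zero_of_re_pos (by norm_num)
  have h9 : (w : ℂ) = 1 := by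
    have h10 : (1 : ℂ) * Lam N f 1 = w * Lam N f 1 := by rw [one_mul]; exact h6
    exact (mul_right_cancel₀ h8 h10).symm
  have h11 : w = 1 := by exact_mod_cast h9
  have h12 := (finrank_dec E instDecidableEqRat (fun a b => Classical.propDecidable (a = b))).trans h2
  rw [h11, h12, pow_zero]

/-! ### densities -/

theorem half_root (j : Fin 3) :
    Tendsto (fun X : ℕ => (NS (fun d => rootNumber j d = 1) X : ℝ) / (NS (fun _ => True) X : ℝ))
      atTop (nhds (1 / 2)) ∧
    Tendsto (fun X : ℕ => (NF (fun d => rootNumber j d = 1) X : ℝ) / (NF (fun _ => True) X : ℝ))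
      atTop (nhds (1 / 2)) := by
  fin_cases j
  · have e : (fun d => rootNumber 0 d = 1) = fun d => Pool.Agent.N916.PQ.f15 d = true :=
      funext fun d => propext (Pool.Agent.N916.PQ.f15_w15 d).symm
    change Tendsto (fun X : ℕ => (NS (fun d => rootNumber 0 d = 1) X : ℝ) / _) _ _ ∧
      Tendsto (fun X : ℕ => (NF (fun d => rootNumber 0 d = 1) X : ℝ) / _) _ _
    rw [e]
    exact ⟨Pool.Agent.N916.PQ.half_NS Pool.Agent.N916.PQ.hf15,
      Pool.Agent.N916.PQ.half_NF Pool.Agent.N916.PQ.hf15⟩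
  · have e : (fun d => rootNumber 1 d = 1) = Rt17 := funext fun d => propext (rn1 d)
    change Tendsto (fun X : ℕ => (NS (fun d => rootNumber 1 d = 1) X : ℝ) / _) _ _ ∧
      Tendsto (fun X : ℕ => (NF (fun d => rootNumber 1 d = 1) X : ℝ) / _) _ _
    rw [e]
    refine ⟨?_, Pool.Agent.N969.Den.half17⟩
    refine tendsto_const_nhds.congr' ?_
    filter_upwards [NS_top.eventually_gt_atTop 0] with X hX
    have h3 := Pool.Agent.N919.BS.NS_half Pool.Agent.N919.BS.root17 X
    have h4 : (NS (fun _ => True) X : ℝ) = 2 * (NS Rt17 X : ℝ) := by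
      rw [← h3]
      push_cast
      ring
    rw [h4] at hX ⊢
    have h5 : (NS Rt17 X : ℝ) ≠ 0 := by
      intro h
      rw [h] at hX
      norm_num at hX
    field_simp
  · have e : (fun d => rootNumber 2 d = 1) = fun d => Pool.Agent.N809.Red21.f21 d = true :=
      funext fun d => propext (Pool.Agent.N809.Red21.f21_iff d).symm
    change Tendsto (fun X : ℕ => (NS (fun d => rootNumber 2 d = 1) X : ℝ) / _) _ _ ∧
      Tendsto (fun X : ℕ => (NF (fun d => rootNumber 2 d = 1) X : ℝ) / _) _ _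
    rw [e]
    exact ⟨Pool.Agent.N916.PQ.half_NS Pool.Agent.N809.Red21.hf21,
      Pool.Agent.N916.PQ.half_NF Pool.Agent.N809.Red21.hf21⟩

/-- among the twists with root number `+ 1` -/
theorem dens_root (j : Fin 3) :
    Tendsto (fun X : ℕ => (NS (RankZeroShaTwo j) X : ℝ) / (NS (fun d => rootNumber j d = 1) X : ℝ))
      atTop (nhds (2 * delta j)) ∧
    Tendsto (fun X : ℕ => (NF (RankZeroShaTwo j) X : ℝ) / (NF (fun d => rootNumber j d = 1) X : ℝ))
      atTop (nhds (2 * delta j)) := by
  have e : 2 * delta j / 2 = delta j := by ring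
  constructor
  · refine Pool.Agent.N969.Den.ratio2 ?_ (half_root j).1 NS_top
    rw [e]
    exact dens_sf j
  · refine Pool.Agent.N969.Den.ratio2 ?_ (half_root j).2 NF_top
    rw [e]
    exact dens_fd j

open Classical in
/-- `E(ℚ)` is finite, `L(E, s)` continues to a connected open set containing `1`, every such
continuation is not zero at `1`, and `Ш(E/ℚ)[2^∞] = 0` -/
def RankQ (E : WeierstrassCurve ℚ) : Prop :=
  Finite E.toAffine.Point ∧ Module.finrank ℤ E.toAffine.Point = 0 ∧ (∃ U f, Continues E U f) ∧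
    (∀ U f, Continues E U f → f 1 ≠ 0) ∧
      ∀ (k : ℕ) (y : Pool.Agent.TH841.NF.D.Sha E), (2 ^ k : ℕ) • y = 0 → y = 0

theorem rankQ_of {E : WeierstrassCurve ℚ} (h : RankPart E 0) : RankQ E := by
  classical
  obtain ⟨h1, h2, h3, h4, -, h6⟩ := h
  refine ⟨h1, (finrank_dec E instDecidableEqRat
    (fun a b => Classical.propDecidable (a = b))).trans h2, h3, fun U f hf => (h4 U f hf).1,
    fun k y hy => ?_⟩
  · have := h6 k y hy
    rwa [pow_zero, one_smul] at this

/-- the conclusions for the twist of `C_j` by `d` -/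
def Concl (j : Fin 3) (d : ℤ) : Prop :=
  rootNumber j d = 1 ∧ Parity (E ℚ j d) ∧ RankQ (E ℚ j d)

theorem concl {j : Fin 3} {d : ℤ} (hs : Squarefree d) (h : RankZeroShaTwo j d) : Concl j d := by
  have h1 := rat j hs.ne_zero h
  exact ⟨root_one j hs h, parity_of h1, rankQ_of h1⟩

/-- **the main theorem on the parity conjecture** -/
theorem mainP :
    (∀ (j : Fin 3) (d : ℤ), Squarefree d → RankZeroShaTwo j d →
      rootNumber j d = 1 ∧ Parity (E ℚ j d) ∧ RankQ (E ℚ j d)) ∧
    (∀ j : Fin 3,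
      Tendsto (fun X : ℕ => (NS (RankZeroShaTwo j) X : ℝ) / (NS (fun _ => True) X : ℝ))
        atTop (nhds (delta j)) ∧
      Tendsto (fun X : ℕ => (NF (RankZeroShaTwo j) X : ℝ) / (NF (fun _ => True) X : ℝ))
        atTop (nhds (delta j)) ∧
      Tendsto (fun X : ℕ => (NS (RankZeroShaTwo j) X : ℝ) /
        (NS (fun d => rootNumber j d = 1) X : ℝ)) atTop (nhds (2 * delta j)) ∧
      Tendsto (fun X : ℕ => (NF (RankZeroShaTwo j) X : ℝ) /
        (NF (fun d => rootNumber j d = 1) X : ℝ)) atTop (nhds (2 * delta j))) ∧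
    (∀ S : Finset (Fin 3), S.Nonempty →
      Tendsto (fun X : ℕ => (NS (fun d => ∀ j ∈ S, RankZeroShaTwo j d) X : ℝ) /
        (NS (fun _ => True) X : ℝ)) atTop (nhds (deltaS S)) ∧
      Tendsto (fun X : ℕ => (NF (fun d => ∀ j ∈ S, RankZeroShaTwo j d) X : ℝ) /
        (NF (fun _ => True) X : ℝ)) atTop (nhds (deltaS S))) ∧
    (∀ (j : Fin 3) (D : ℤ), Fund D → D < 0 → Allowed j D →
      (RankZeroShaTwo j D ↔ NoOrderFour D)) ∧
    0.1443 < delta 0 ∧ delta 0 < 0.1445 ∧ 0.2096 < delta 1 ∧ delta 1 < 0.2098 ∧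
      0.1544 < delta 2 ∧ delta 2 < 0.1547 := by
  refine ⟨fun j d hs h => concl hs h,
    fun j => ⟨dens_sf j, dens_fd j, (dens_root j).1, (dens_root j).2⟩,
    fun S hS => ⟨tot_S totS hS, tot_S totF hS⟩, fun j D hD h0 ha => ?_, delta_bounds⟩
  rw [← good_pow (ι := Unit) D j]
  exact good_class (ι := Unit) hD h0 fun _ => ha

end Pool.Agent.N970.AVP
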