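import Pool.Agent.Y687.MQ.Abs
import Pool.Agent.Y723.QT.Rf
import Pool.Agent.Y723.QT.Bc
import Pool.Agent.R494.AV1
import Pool.Agent.R413.SJ.ShaQ
import Pool.Agent.N969.P15.Glue
import Pool.Agent.N973.P15G.All
import Pool.Agent.N809.P17.All
import Pool.Agent.N973.P21G.All

/-!
# Products of twists of the three curves over multiquadratic fields: the rank conjecture

Adapted from `Pool.Agent.N856.JL.Fld` and `Pool.Agent.N856.JL.Av` (helper856).
-/

set_option autoImplicit false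
set_option linter.style.haveILetI false

open WeierstrassCurve NumberField IsDedekindDomain

namespace Pool.Agent.N970.AVP

open Pool.Agent.Y687.MQ (ZB ZB_scale mq_zero)
open Pool.Agent.N875.X15 (Fin2)

/-- the coefficients `a` of the three curves -/
def cA : Fin 3 → ℤ := ![-12987, -91, -5211]

/-- the coefficients `b` of the three curves -/
def cB : Fin 3 → ℤ := ![-263466, -330, -31050]

/-- the coefficient `a` of the twist by `m` of the curve number `j` -/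
def A (j : Fin 3) (m : ℤ) : ℤ := cA j * m ^ 2

/-- the coefficient `b` of the twist by `m` of the curve number `j` -/
def B (j : Fin 3) (m : ℤ) : ℤ := cB j * m ^ 3

/-- the twist by `m` of the curve number `j`, over the field `K` -/
def E (K : Type) [Field K] (j : Fin 3) (m : ℤ) : WeierstrassCurve K :=
  { a₁ := 0, a₂ := 0, a₃ := 0, a₄ := (A j m : K), a₆ := (B j m : K) }

/-- `E(ℚ)` is finite and `Ш(E/ℚ)` has no element of order two -/
def RankZeroShaTwo (j : Fin 3) (m : ℤ) : Prop :=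
  Finite (E ℚ j m).toAffine.Point ∧ ∀ x : Pool.Agent.TH841.NF.D.Sha (E ℚ j m), 2 • x = 0 → x = 0

theorem base_ne (j : Fin 3) : 4 * cA j ^ 3 + 27 * cB j ^ 2 ≠ 0 := by
  fin_cases j <;> simp [cA, cB]

theorem disc_eq (j : Fin 3) (m : ℤ) :
    4 * A j m ^ 3 + 27 * B j m ^ 2 = (4 * cA j ^ 3 + 27 * cB j ^ 2) * m ^ 6 := by
  unfold A B
  ring

theorem disc_ne (j : Fin 3) {m : ℤ} (hm : m ≠ 0) : 4 * A j m ^ 3 + 27 * B j m ^ 2 ≠ 0 := by
  rw [disc_eq]
  exact mul_ne_zero (base_ne j) (pow_ne_zero 6 hm)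

theorem rz_iff (j : Fin 3) (m : ℤ) : RankZeroShaTwo j m ↔ Fin2 (E ℚ j m) := by
  unfold RankZeroShaTwo Pool.Agent.N875.X15.Fin2
  refine and_congr Iff.rfl ?_
  have h := (Pool.Agent.R413.SJ.ShaQ.two_iff (E ℚ j m)).symm
  refine Iff.trans h (forall_congr' fun x => ?_)
  rw [two_nsmul]

theorem E_zero (m : ℤ) : E ℚ 0 m = Pool.Agent.N875.X15.WS m := rfl

theorem E_one (m : ℤ) : E ℚ 1 m = Pool.Agent.N875.P17.WS m := rfl

theorem E_two (m : ℤ) : E ℚ 2 m = Pool.Agent.N637.P21.WS m := rfl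

/-- the scaling of the equation -/
theorem rz_scale (j : Fin 3) {m k : ℤ} (hm : m ≠ 0) (hk : k ≠ 0) :
    RankZeroShaTwo j (m * k ^ 2) ↔ RankZeroShaTwo j m := by
  rw [rz_iff, rz_iff]
  have hkq : (k : ℚ) ≠ 0 := by exact_mod_cast hk
  have hvr : Pool.Agent.Y700.VR (E ℚ j (m * k ^ 2)) (E ℚ j m) (k : ℚ) 0 0 0 := by
    refine ⟨hkq, ?_, ?_, ?_, ?_, ?_⟩ <;> simp [E, A, B] <;> ring
  have hΔ : (E ℚ j m).Δ ≠ 0 := by
    have e : (E ℚ j m).Δ = -16 * ((4 * A j m ^ 3 + 27 * B j m ^ 2 : ℤ) : ℚ) := by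
      simp only [E, WeierstrassCurve.Δ, WeierstrassCurve.b₂, WeierstrassCurve.b₄,
        WeierstrassCurve.b₆, WeierstrassCurve.b₈]
      push_cast
      ring
    rw [e]
    exact mul_ne_zero (by norm_num) (by exact_mod_cast disc_ne j hm)
  have hT : Pool.Agent.Z702.S_TRN := Pool.Agent.Z932.Z702.t_TRN
  obtain ⟨h1, h2, -⟩ := hT _ _ _ _ _ _ hvr hΔ
  exact and_congr h1 h2

/-- the squarefree part of a nonzero integer -/
theorem exists_sqf {m : ℤ} (hm : m ≠ 0) : ∃ s k : ℤ, Squarefree s ∧ k ≠ 0 ∧ m = s * k ^ 2 := by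
  obtain ⟨a, b, h1, h2⟩ := Nat.sq_mul_squarefree m.natAbs
  have hn : m.natAbs ≠ 0 := Int.natAbs_ne_zero.2 hm
  have hb : b ≠ 0 := by
    rintro rfl
    apply hn
    rw [← h1]
    simp
  have e : (m.natAbs : ℤ) = (a : ℤ) * (b : ℤ) ^ 2 := by
    rw [← h1]
    push_cast
    ring
  rcases Int.natAbs_eq m with h | h
  · refine ⟨a, b, Int.squarefree_natCast.2 h2, by exact_mod_cast hb, ?_⟩
    rw [h, e]
  · refine ⟨-(a : ℤ), b, ?_, by exact_mod_cast hb, ?_⟩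
    · rw [← Int.squarefree_natAbs, Int.natAbs_neg, Int.natAbs_natCast]
      exact h2
    · rw [h, e]
      ring

theorem rank_of (j : Fin 3) {m : ℤ} (hs : Squarefree m) (h : RankZeroShaTwo j m) :
    Pool.Agent.Y687.RankBSD (A j m) (B j m) := by
  rw [rz_iff] at h
  fin_cases j
  · exact Pool.Agent.N973.P15G.F.rank15 hs h
  · exact Pool.Agent.N809.P17.bsd_all hs h
  · exact Pool.Agent.N973.P21G.rank21 hs h

theorem zb_one (j : Fin 3) {m : ℤ} (hs : Squarefree m) (h : RankZeroShaTwo j m) :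
    ZB (A j m) (B j m) := by
  obtain ⟨F, h1, h2, h3, -⟩ := rank_of j hs h
  exact ⟨⟨F, ⟨h1, h2⟩, h3⟩, Pool.Agent.N969.P15.set_of_pt (disc_ne j hs.ne_zero) h.1⟩

/-- rank and order zero for all twists -/
theorem zb (j : Fin 3) {m : ℤ} (hm : m ≠ 0) (h : RankZeroShaTwo j m) : ZB (A j m) (B j m) := by
  obtain ⟨s, k, hs, hk, rfl⟩ := exists_sqf hm
  exact ZB_scale (a := cA j) (b := cB j) (base_ne j) hs.ne_zero hk
    (zb_one j hs ((rz_scale j hs.ne_zero hk).1 h))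

theorem sha (j : Fin 3) {m : ℤ} (h : RankZeroShaTwo j m) (k : ℕ)
    (x : Pool.Agent.TH841.SH.D.Sha (Pool.Agent.W307.RT.Sh (A j m) (B j m)))
    (hx : (2 ^ k : ℕ) • x = 0) : x = 0 :=
  Pool.Agent.N875.X15.fin2_pow (W := E ℚ j m) ((rz_iff j m).1 h) k x hx

/-- **rank and order zero over the field** -/
theorem field (j : Fin 3) {n : ℕ} {d : Fin n → ℤ} {M : ℤ} (hM : M ≠ 0) (hd0 : ∀ i, d i ≠ 0)
    (hd : ∀ T : Finset (Fin n), T.Nonempty → ¬ IsSquare (∏ i ∈ T, d i))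
    (h : ∀ T : Finset (Fin n), RankZeroShaTwo j (M * ∏ i ∈ T, d i)) (K : Type)
    [Field K] [NumberField K] (x : Fin n → K) (hx : ∀ i, x i ^ 2 = (d i : K))
    (hK : IntermediateField.adjoin ℚ (Set.range x) = ⊤) :
    (∃ F : ℂ → ℂ, Pool.Agent.Y19.QT.IsLFunK K (A j M) (B j M) (∏ i, d i) F ∧ F 1 ≠ 0) ∧
      Finite (Pool.Agent.Y19.QT.EK K (A j M) (B j M)) := by
  refine mq_zero hd (disc_ne j hM) (fun T => ?_) K x hx hK
  have e1 : A j M * (∏ i ∈ T, d i) ^ 2 = A j (M * ∏ i ∈ T, d i) := by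
    unfold A
    ring
  have e2 : B j M * (∏ i ∈ T, d i) ^ 3 = B j (M * ∏ i ∈ T, d i) := by
    unfold B
    ring
  rw [e1, e2]
  exact zb j (mul_ne_zero hM (Finset.prod_ne_zero_iff.2 fun i _ => hd0 i)) (h T)

/-- a rational two-torsion point -/
theorem root (j : Fin 3) (M : ℤ) : ∃ e : ℤ, e ^ 3 + A j M * e + B j M = 0 := by
  fin_cases j
  · refine ⟨-21 * M, ?_⟩
    simp only [A, B, cA, cB, Fin.zero_eta, Matrix.cons_val_zero]
    ring
  · refine ⟨-5 * M, ?_⟩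
    simp only [A, B, cA, cB, Fin.mk_one, Matrix.cons_val_one, Matrix.cons_val_zero]
    ring
  · refine ⟨-6 * M, ?_⟩
    simp only [A, B, cA, cB, Fin.reduceFinMk, Matrix.cons_val]
    ring

/-- **the 2-primary part over the field** -/
theorem shaK (j : Fin 3) {n : ℕ} {d : Fin n → ℤ} {M : ℤ} (hM : M ≠ 0) (hd0 : ∀ i, d i ≠ 0)
    (h : ∀ T : Finset (Fin n), RankZeroShaTwo j (M * ∏ i ∈ T, d i)) (K : Type)
    [Field K] [NumberField K] (x : Fin n → K) (hx : ∀ i, x i ^ 2 = (d i : K))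
    (hK : IntermediateField.adjoin ℚ (Set.range x) = ⊤) :
    {y : Pool.Agent.TH841.NF.D.Sha (Pool.Agent.TH841.NF.EF (A j M) (B j M) K) |
      ∃ k : ℕ, (2 ^ k : ℕ) • y = 0}.Finite ∧
    ∀ (k : ℕ) (y : Pool.Agent.TH841.NF.D.Sha (Pool.Agent.TH841.NF.EF (A j M) (B j M) K)),
      (2 ^ k : ℕ) • y = 0 → (2 ^ n : ℕ) • y = 0 := by
  have hkl : Pool.Agent.Y723.QT.Kl
      (Pool.Agent.TH841.NF.D.Sha (Pool.Agent.TH841.NF.EF (A j M) (B j M) K)) (n + 0) := by
    refine Pool.Agent.Y723.QT.base_kl (r := x) (d := fun i => (d i : ℚ)) (fun i => ?_)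
      (fun i => by exact_mod_cast hd0 i) hK fun T => ?_
    · rw [hx i, map_intCast]
    · rw [Pool.Agent.TH841.NF.tw_Sh]
      have e1 : (∏ i ∈ T, d i) ^ 2 * A j M = A j (M * ∏ i ∈ T, d i) := by
        unfold A
        ring
      have e2 : (∏ i ∈ T, d i) ^ 3 * B j M = B j (M * ∏ i ∈ T, d i) := by
        unfold B
        ring
      rw [e1, e2]
      intro k y hy
      rw [sha j (h T) k y hy, smul_zero]
  rw [add_zero] at hkl
  refine ⟨?_, hkl⟩
  obtain ⟨e, he⟩ := root j M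
  exact (Pool.Agent.Y723.QT.f2_iff
    (Pool.Agent.Y723.QT.tf_EF (F := K) (disc_ne j hM) he)).2 ⟨n, hkl⟩

/-- the places of bad reduction divide `2 · 3 · 5 · 7 · 17 · m D` -/
theorem bad_of (j : Fin 3) {K : Type} [Field K] [NumberField K] {m D : ℤ}
    (v : IsDedekindDomain.HeightOneSpectrum (𝓞 K))
    (h : ((2 * (4 * A j m ^ 3 + 27 * B j m ^ 2) * D : ℤ) : 𝓞 K) ∈ v.asIdeal) :
    ((3570 * m * D : ℤ) : 𝓞 K) ∈ v.asIdeal := by
  have hv := v.isPrime
  obtain ⟨c, hc⟩ : (2 * (4 * A j m ^ 3 + 27 * B j m ^ 2) * D : ℤ) ∣ (3570 * m * D) ^ 20 := by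
    rw [disc_eq]
    have h1 : (2 * (4 * cA j ^ 3 + 27 * cB j ^ 2) : ℤ) ∣ 3570 ^ 20 := by
      fin_cases j
      · simp only [cA, cB, Fin.zero_eta, Matrix.cons_val_zero]
        norm_num
      · simp only [cA, cB, Fin.mk_one, Matrix.cons_val_one, Matrix.cons_val_zero]
        norm_num
      · simp only [cA, cB, Fin.reduceFinMk, Matrix.cons_val]
        norm_num
    obtain ⟨c, hc⟩ := h1
    refine ⟨c * m ^ 14 * D ^ 19, ?_⟩
    rw [mul_pow, mul_pow, hc]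
    ring
  refine hv.mem_of_pow_mem 20 ?_
  rw [← Int.cast_pow, hc, Int.cast_mul]
  exact Ideal.mul_mem_right _ _ h

end Pool.Agent.N970.AVP
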