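import Pool.Agent.N856.JL.Av2
import Pool.Agent.N970.AVP.Cls

/-!
# Products of twists of `X_0(15)` over totally real multiquadratic fields: fixed field and random twist,
random extension (theorems of helper856)
-/

set_option autoImplicit false

open Filter

namespace Pool.Agent.N970.AVP

open Pool.Agent.N856.JL.Av (Twist Disc UpToSq HasDensity curves eta)

/-- the product of the twists of `X_0(15)` by the `- e i` is good over `ℚ(√d_1, …, √d_r)` -/
def GoodN {ι : Type} {r : ℕ} (d : Fin r → ℕ) (e : ι → ℕ) : Prop :=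
  Good (fun t => (d t : ℤ)) (fun _ => 0) fun i => -(e i : ℤ)

theorem goodN_iff {ι : Type} {r : ℕ} (d : Fin r → ℕ) (e : ι → ℕ) :
    GoodN d e ↔ Pool.Agent.N856.JL.Av.Good d e := Iff.rfl

theorem jl {ι : Type} [Fintype ι] [Nonempty ι] {r : ℕ} {d : Fin r → ℕ} (hd : ∀ t, Disc (d t)) :
    (∀ e : ι → ℕ, (∀ i, UpToSq Twist (e i)) →
      HasDensity Disc (fun D => GoodN d fun i => e i * D) (eta ^ curves d e)) ∧
    (∀ e : ι → ℕ, (∀ i, UpToSq Disc (e i)) →
      HasDensity Twist (fun n => GoodN d fun i => e i * n) (eta ^ curves d e)) ∧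
    (∀ e : ι → ℕ, (∀ i, UpToSq Twist (e i)) → GoodN d e →
      HasDensity Disc (fun D => GoodN (Fin.snoc d D : Fin (r + 1) → ℕ) e) (eta ^ curves d e)) := by
  obtain ⟨-, h1, h2, h3, -⟩ := Pool.Agent.N856.JL.Av.main (ι := ι) hd
  exact ⟨h1, h2, h3⟩

end Pool.Agent.N970.AVP
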