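import Pool.Agent.N970.AVP.Dens
import Pool.Agent.N975.JT.Uni

/-!
# Products of twists of the curves of conductor 15 and 17: the joint law
-/

set_option autoImplicit false

open Finset Filter

namespace Pool.Agent.N970.AVP

open Pool.Agent.N919.BS (NS NF HG Rt17 Fund core)
open Pool.Agent.N969.Den (NS_close NF_close lim_close NS_top NF_top)
open Pool.Agent.N975.JT (S17 joint_NS joint_NF)
open Pool.Agent.N809.PQ (Sg15)
open Pool.Agent.N916.PQ (f15)
open Pool.Agent.N916.MO (G17)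
open Pool.Agent.N916.GB (eta)
open Pool.Agent.Y703.CQ (c2)

/-- the joint proportion -/
noncomputable def deltaJ : ℝ :=
  433 / 1728 * ((∏' i : ℕ, (1 - (1 / 2 : ℝ) ^ (i + 1))) * ∏' i : ℕ, (1 - (1 / 2 : ℝ) ^ (2 * i + 1)))

theorem crit01 (d : ℤ) (hs : Squarefree d) (h1 : d ≠ 1) (h2 : d ≠ -1) :
    (Sg15 d ∧ S17 d) ↔ (RankZeroShaTwo 0 d ∧ RankZeroShaTwo 1 d) := by
  have e0 : RankZeroShaTwo 0 d ↔ Sg15 d := by
    refine ((rz_iff 0 d).trans (Pool.Agent.N875.D15.fin2S_iff_sg15 hs)).trans ?_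
    simp [h1, h2]
  have e1 : RankZeroShaTwo 1 d ↔ S17 d := (rz_iff 1 d).trans (Pool.Agent.N809.P17.fin2_all hs)
  rw [e0, e1]

variable (hG : HG (fun d => f15 d = true ∧ Rt17 d) (fun d => Sg15 d ∧ G17 d) (eta * c2))

include hG

theorem dens01_sf :
    Tendsto (fun X : ℕ => (NS (fun d => RankZeroShaTwo 0 d ∧ RankZeroShaTwo 1 d) X : ℝ) /
      (NS (fun _ => True) X : ℝ)) atTop (nhds deltaJ) :=
  lim_close (joint_NS hG).1 (fun X => NS_close crit01 X)
    (fun X => NS_close (fun d a b c => (crit01 d a b c).symm) X) NS_top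

theorem dens01_fd :
    Tendsto (fun X : ℕ => (NF (fun d => RankZeroShaTwo 0 d ∧ RankZeroShaTwo 1 d) X : ℝ) /
      (NF (fun _ => True) X : ℝ)) atTop (nhds deltaJ) :=
  lim_close (joint_NF hG).1 (fun X => NF_close crit01 X)
    (fun X => NF_close (fun d a b c => (crit01 d a b c).symm) X) NF_top

omit hG in
theorem good_mix {ι : Type} {j : ι → Fin 3} (h2 : ∀ i, j i ≠ 2) (h0 : ∃ i, j i = 0)
    (h1 : ∃ i, j i = 1) (D : ℤ) : Good (fun _ : Fin 1 => D) j (fun _ => 1) ↔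
      RankZeroShaTwo 0 D ∧ RankZeroShaTwo 1 D := by
  rw [good_quad]
  simp only [one_mul]
  constructor
  · intro h
    obtain ⟨i, hi⟩ := h0
    obtain ⟨k, hk⟩ := h1
    have a1 := (h i).2
    have a2 := (h k).2
    rw [hi] at a1
    rw [hk] at a2
    exact ⟨a1, a2⟩
  · rintro ⟨a0, a1⟩ i
    refine ⟨rz_one _, ?_⟩
    have h3 := h2 i
    generalize j i = x at h3
    fin_cases x
    · exact a0
    · exact a1
    · exact absurd rfl h3

/-- **the proportion of the quadratic fields over which `C_0^a × C_1^b` is good** -/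
theorem dens01_quad {ι : Type} {j : ι → Fin 3} (h2 : ∀ i, j i ≠ 2) (h0 : ∃ i, j i = 0)
    (h1 : ∃ i, j i = 1) :
    Tendsto (fun X : ℕ => (countQuad
      (fun D => Good (fun _ : Fin 1 => D) j (fun _ => 1)) X : ℝ) /
      (countQuad (fun _ => True) X : ℝ)) atTop (nhds deltaJ) :=
  lim_quad (Q := fun d => RankZeroShaTwo 0 d ∧ RankZeroShaTwo 1 d)
    (fun D hD => (good_mix h2 h0 h1 D).trans (and_congr (rz_core 0 hD) (rz_core 1 hD)))
    (dens01_fd hG)

end Pool.Agent.N970.AVP
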