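import Mathlib.NumberTheory.LegendreSymbol.JacobiSymbol
import Mathlib.Data.Nat.Squarefree
import Mathlib.Data.Nat.PrimeFin
import Mathlib.Tactic

/-!
# The root number of the twists as the product of the local root numbers
-/

set_option autoImplicit false

namespace Pool.Agent.N970.AVP

open Finset

/-- the conductor of the curve `C_j` -/
def cond : Fin 3 → ℕ := ![15, 17, 21]

/-- `1` if `C_j` has split, `- 1` if it has nonsplit multiplicative reduction at `p` -/
def splitSign : Fin 3 → ℕ → ℤ := ![fun p => if p = 3 then -1 else 1, fun _ => 1,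
  fun p => if p = 7 then -1 else 1]

/-- the odd part of the squarefree integer `d` -/
def oddPart (d : ℤ) : ℤ := if d % 2 = 0 then d / 2 else d

/-- the local root number at the prime `p` of the twist `C_{j, d}`, `d` squarefree -/
def localRoot (j : Fin 3) (d : ℤ) (p : ℕ) : ℤ :=
  if p = 2 then (if oddPart d % 4 = 1 then 1 else -1)
  else if (p : ℤ) ∣ d then jacobiSym (-1) p
  else if p ∣ cond j then -(splitSign j p * jacobiSym d p)
  else 1

/-- the root number of the twist `C_{j, d}` -/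
def rootProd (j : Fin 3) (d : ℤ) : ℤ :=
  -∏ p ∈ (2 * cond j * d.natAbs).primeFactors, localRoot j d p

theorem jac_prod (s : Finset ℕ) (hs : ∀ p ∈ s, p ≠ 0) :
    jacobiSym (-1) (∏ p ∈ s, p) = ∏ p ∈ s, jacobiSym (-1) p := by
  induction s using Finset.induction_on with
  | empty => simp
  | insert a s ha ih =>
    have h1 : ∀ p ∈ s, p ≠ 0 := fun p hp => hs p (Finset.mem_insert_of_mem hp)
    rw [Finset.prod_insert ha, Finset.prod_insert ha,
      jacobiSym.mul_right' _ (hs a (Finset.mem_insert_self _ _)) (Finset.prod_ne_zero_iff.2 h1), ih h1]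

theorem jac_sqf {n : ℕ} (hn : Squarefree n) :
    ∏ p ∈ n.primeFactors, jacobiSym (-1) p = jacobiSym (-1) n := by
  rw [← jac_prod _ fun p hp => (Nat.prime_of_mem_primeFactors hp).ne_zero,
    Nat.prod_primeFactors_of_squarefree hn]

theorem odd_ne {d : ℤ} (hs : Squarefree d) : oddPart d % 2 = 1 ∧ oddPart d ≠ 0 ∧
    (oddPart d < 0 ↔ d < 0) ∧ Squarefree (oddPart d) := by
  have h4 : ¬ (4 : ℤ) ∣ d := by
    intro h
    have := hs 2 (by simpa using h)
    rw [Int.isUnit_iff] at this
    omega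
  have h0 := hs.ne_zero
  unfold oddPart
  split_ifs with h
  · refine ⟨by omega, by omega, by omega, ?_⟩
    exact hs.squarefree_of_dvd ⟨2, by omega⟩
  · exact ⟨by omega, h0, Iff.rfl, hs⟩

theorem odd_factors {d : ℤ} (hs : Squarefree d) :
    (oddPart d).natAbs.primeFactors = d.natAbs.primeFactors.erase 2 := by
  obtain ⟨h1, h2, -, h3⟩ := odd_ne hs
  have h0 := hs.ne_zero
  ext p
  simp only [Nat.mem_primeFactors, mem_erase]
  constructor
  · rintro ⟨hp, hd, -⟩
    have hd' : (p : ℤ) ∣ oddPart d := Int.natCast_dvd.2 hd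
    refine ⟨?_, hp, ?_, by omega⟩
    · rintro rfl
      omega
    · refine Int.natCast_dvd.1 (hd'.trans ?_)
      unfold oddPart
      split_ifs with h
      · exact ⟨2, by omega⟩
      · exact dvd_rfl
  · rintro ⟨hne, hp, hd, -⟩
    refine ⟨hp, ?_, by omega⟩
    have hd' : (p : ℤ) ∣ d := Int.natCast_dvd.2 hd
    refine Int.natCast_dvd.1 ?_
    by_cases h : d % 2 = 0
    · have e : d = 2 * oddPart d := by
        unfold oddPart
        rw [if_pos h]
        omega
      rw [e] at hd'
      have hc : IsCoprime (p : ℤ) 2 := by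
        rw [Int.isCoprime_iff_gcd_eq_one]
        have : Nat.gcd p 2 = 1 := (Nat.coprime_primes hp Nat.prime_two).2 hne
        exact this
      exact hc.dvd_of_dvd_mul_left hd'
    · unfold oddPart
      rw [if_neg h]
      exact hd'

theorem sign_part {u : ℤ} (h1 : u % 2 = 1) :
    (if u % 4 = 1 then (1 : ℤ) else -1) * jacobiSym (-1) u.natAbs = if u < 0 then -1 else 1 := by
  have ho : Odd u.natAbs := by
    rw [Nat.odd_iff]
    omega
  rw [jacobiSym.at_neg_one ho, ZMod.χ₄_nat_eq_if_mod_four]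
  have h2 : ¬ u.natAbs % 2 = 0 := by omega
  rw [if_neg h2]
  by_cases h3 : u % 4 = 1
  · by_cases h4 : u < 0
    · have h5 : ¬ u.natAbs % 4 = 1 := by omega
      rw [if_pos h3, if_neg h5, if_pos h4]
      norm_num
    · have h5 : u.natAbs % 4 = 1 := by omega
      rw [if_pos h3, if_pos h5, if_neg h4]
      norm_num
  · by_cases h4 : u < 0
    · have h5 : u.natAbs % 4 = 1 := by omega
      rw [if_neg h3, if_pos h5, if_pos h4]
      norm_num
    · have h5 : ¬ u.natAbs % 4 = 1 := by omega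
      rw [if_neg h3, if_neg h5, if_neg h4]
      norm_num

/-- the factor at the primes of multiplicative reduction -/
def hh (j : Fin 3) (d : ℤ) (p : ℕ) : ℤ :=
  if (p : ℤ) ∣ d then 1 else if p ∣ cond j then -(splitSign j p * jacobiSym d p) else 1

def gg (d : ℤ) (p : ℕ) : ℤ := if (p : ℤ) ∣ d then jacobiSym (-1) p else 1

theorem cond_ne (j : Fin 3) : cond j ≠ 0 := by fin_cases j <;> decide

theorem cond_odd (j : Fin 3) : ¬ 2 ∣ cond j := by fin_cases j <;> decide

theorem root_eq {j : Fin 3} {d : ℤ} (hs : Squarefree d) :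
    rootProd j d = -((if d < 0 then -1 else 1) * ∏ p ∈ (cond j).primeFactors, hh j d p) := by
  have h0 := hs.ne_zero
  have hc := cond_ne j
  obtain ⟨h1, h2, h3, h4⟩ := odd_ne hs
  set S := (2 * cond j * d.natAbs).primeFactors with hS
  have hn : 2 * cond j * d.natAbs ≠ 0 := by
    refine mul_ne_zero (mul_ne_zero two_ne_zero hc) ?_
    omega
  have m2 : 2 ∈ S := by
    rw [hS, Nat.mem_primeFactors]
    exact ⟨Nat.prime_two, ⟨cond j * d.natAbs, by ring⟩, hn⟩
  have e1 : ∏ p ∈ S, localRoot j d p = localRoot j d 2 * ∏ p ∈ S.erase 2, (gg d p * hh j d p) := by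
    rw [← Finset.mul_prod_erase S _ m2]
    congr 1
    refine Finset.prod_congr rfl fun p hp => ?_
    have hp2 : p ≠ 2 := (Finset.mem_erase.1 hp).1
    unfold localRoot gg hh
    rw [if_neg hp2]
    by_cases a : (p : ℤ) ∣ d
    · rw [if_pos a, if_pos a, if_pos a, mul_one]
    · rw [if_neg a, if_neg a, if_neg a, one_mul]
  have e2 : ∏ p ∈ S.erase 2, gg d p = jacobiSym (-1) (oddPart d).natAbs := by
    have hsq : Squarefree (oddPart d).natAbs := Int.squarefree_natAbs.2 h4
    rw [← jac_sqf hsq, odd_factors hs]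
    symm
    have hsub : d.natAbs.primeFactors.erase 2 ⊆ S.erase 2 := by
      intro p hp
      rw [Finset.mem_erase] at hp ⊢
      refine ⟨hp.1, ?_⟩
      rw [hS, Nat.mem_primeFactors]
      rw [Nat.mem_primeFactors] at hp
      exact ⟨hp.2.1, hp.2.2.1.mul_left _, hn⟩
    have e3 : ∀ p ∈ d.natAbs.primeFactors.erase 2, jacobiSym (-1) p = gg d p := by
      intro p hp
      rw [Finset.mem_erase, Nat.mem_primeFactors] at hp
      unfold gg
      rw [if_pos (Int.natCast_dvd.2 hp.2.2.1)]
    rw [Finset.prod_congr rfl e3]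
    refine Finset.prod_subset hsub fun p hp hp' => ?_
    rw [Finset.mem_erase, hS, Nat.mem_primeFactors] at hp
    rw [Finset.mem_erase, Nat.mem_primeFactors] at hp'
    unfold gg
    rw [if_neg]
    intro a
    exact hp' ⟨hp.1, hp.2.1, Int.natCast_dvd.1 a, by omega⟩
  have e4 : ∏ p ∈ S.erase 2, hh j d p = ∏ p ∈ (cond j).primeFactors, hh j d p := by
    symm
    refine Finset.prod_subset ?_ fun p hp hp' => ?_
    · intro p hp
      rw [Nat.mem_primeFactors] at hp
      rw [Finset.mem_erase, hS, Nat.mem_primeFactors]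
      refine ⟨?_, hp.1, (hp.2.1.mul_left 2).mul_right _, hn⟩
      rintro rfl
      exact cond_odd j hp.2.1
    · rw [Finset.mem_erase, hS, Nat.mem_primeFactors] at hp
      rw [Nat.mem_primeFactors] at hp'
      unfold hh
      by_cases a : (p : ℤ) ∣ d
      · rw [if_pos a]
      · rw [if_neg a, if_neg fun b => hp' ⟨hp.2.1, b, hc⟩]
  have e5 : localRoot j d 2 = if oddPart d % 4 = 1 then 1 else -1 := by
    unfold localRoot
    rw [if_pos rfl]
  have e6 := sign_part h1
  unfold rootProd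
  rw [← hS, e1, Finset.prod_mul_distrib, e2, e4, e5, ← mul_assoc, e6]
  congr 2
  by_cases a : d < 0
  · rw [if_pos a, if_pos (h3.2 a)]
  · rw [if_neg a, if_neg fun b => a (h3.1 b)]

/-- the explicit form -/
def rootNumber' : Fin 3 → ℤ → ℤ :=
  ![fun d => (if d < 0 then -1 else 1) * (if d % 3 = 2 then -1 else 1) *
      (if d % 5 = 1 ∨ d % 5 = 4 then 1 else -1),
    fun d => (if d < 0 then -1 else 1) * (if jacobiSym d 17 = 1 then 1 else -1),
    fun d => (if d < 0 then -1 else 1) * (if d % 3 = 1 then 1 else -1) *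
      (if d % 7 = 3 ∨ d % 7 = 5 ∨ d % 7 = 6 then -1 else 1)]

theorem pf15 : (15 : ℕ).primeFactors = {3, 5} := by
  have : (15 : ℕ) = 3 * 5 := by norm_num
  rw [this, Nat.primeFactors_mul (by norm_num) (by norm_num), Nat.prime_three.primeFactors,
    Nat.prime_five.primeFactors]
  rfl

theorem pf17 : (17 : ℕ).primeFactors = {17} := (by norm_num : Nat.Prime 17).primeFactors

theorem pf21 : (21 : ℕ).primeFactors = {3, 7} := by
  have : (21 : ℕ) = 3 * 7 := by norm_num
  rw [this, Nat.primeFactors_mul (by norm_num) (by norm_num), Nat.prime_three.primeFactors,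
    (by norm_num : Nat.Prime 7).primeFactors]
  rfl

theorem j3 (d : ℤ) : jacobiSym d 3 = if d % 3 = 0 then 0 else if d % 3 = 1 then 1 else -1 := by
  rw [jacobiSym.mod_left]
  have : d % 3 = 0 ∨ d % 3 = 1 ∨ d % 3 = 2 := by omega
  rcases this with h | h | h <;> simp only [Nat.cast_ofNat, h] <;> norm_num

theorem j5 (d : ℤ) : jacobiSym d 5 = if d % 5 = 0 then 0 else
    if d % 5 = 1 ∨ d % 5 = 4 then 1 else -1 := by
  rw [jacobiSym.mod_left]
  have : d % 5 = 0 ∨ d % 5 = 1 ∨ d % 5 = 2 ∨ d % 5 = 3 ∨ d % 5 = 4 := by omega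
  rcases this with h | h | h | h | h <;> simp only [Nat.cast_ofNat, h] <;> norm_num

theorem j7 (d : ℤ) : jacobiSym d 7 = if d % 7 = 0 then 0 else
    if d % 7 = 3 ∨ d % 7 = 5 ∨ d % 7 = 6 then -1 else 1 := by
  rw [jacobiSym.mod_left]
  have : d % 7 = 0 ∨ d % 7 = 1 ∨ d % 7 = 2 ∨ d % 7 = 3 ∨ d % 7 = 4 ∨ d % 7 = 5 ∨ d % 7 = 6 := by
    omega
  rcases this with h | h | h | h | h | h | h <;> simp only [Nat.cast_ofNat, h] <;> norm_num

theorem j17 (d : ℤ) : jacobiSym d 17 = 0 ↔ (17 : ℤ) ∣ d := by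
  rw [jacobiSym.eq_zero_iff_not_coprime]
  constructor
  · intro h
    by_contra hd
    apply h
    have hp : Nat.Prime 17 := by norm_num
    have : Nat.Coprime 17 d.natAbs := (Nat.Prime.coprime_iff_not_dvd hp).2 fun a =>
      hd (Int.natCast_dvd.2 a)
    rw [Int.gcd_comm]
    exact this
  · intro hd h
    have h1 : ((17 : ℕ) : ℤ) ∣ Int.gcd d ((17 : ℕ) : ℤ) := Int.dvd_coe_gcd hd (by norm_num)
    rw [h] at h1
    norm_num at h1

/-- **the product of the local root numbers** -/
theorem root_explicit (j : Fin 3) {d : ℤ} (hs : Squarefree d) : rootProd j d = rootNumber' j d := by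
  rw [root_eq hs]
  have key : ∀ s : ℤ, ∀ a b : ℤ, -(s * (a * b)) = s * a * -b := fun s a b => by ring
  fin_cases j
  · change -((if d < 0 then -1 else 1) * ∏ p ∈ (15 : ℕ).primeFactors, hh 0 d p) =
      (if d < 0 then -1 else 1) * (if d % 3 = 2 then -1 else 1) *
        (if d % 5 = 1 ∨ d % 5 = 4 then 1 else -1)
    rw [pf15, Finset.prod_pair (by norm_num), key]
    have h3 : hh 0 d 3 = if d % 3 = 2 then -1 else 1 := by
      have e : hh 0 d 3 = if ((3 : ℕ) : ℤ) ∣ d then 1 else -(-1 * jacobiSym d 3) := rfl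
      rw [e, j3]
      have c : ((3 : ℕ) : ℤ) = 3 := rfl
      rw [c]
      split_ifs <;> omega
    have h5 : -hh 0 d 5 = if d % 5 = 1 ∨ d % 5 = 4 then 1 else -1 := by
      have e : hh 0 d 5 = if ((5 : ℕ) : ℤ) ∣ d then 1 else -(1 * jacobiSym d 5) := rfl
      rw [e, j5]
      have c : ((5 : ℕ) : ℤ) = 5 := rfl
      rw [c]
      split_ifs <;> omega
    rw [h3, h5]
  · change -((if d < 0 then -1 else 1) * ∏ p ∈ (17 : ℕ).primeFactors, hh 1 d p) =
      (if d < 0 then -1 else 1) * (if jacobiSym d 17 = 1 then 1 else -1)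
    rw [pf17, Finset.prod_singleton, ← mul_neg]
    congr 1
    have e : hh 1 d 17 = if ((17 : ℕ) : ℤ) ∣ d then 1 else -(1 * jacobiSym d 17) := rfl
    rw [e]
    have c : ((17 : ℕ) : ℤ) = 17 := rfl
    rw [c]
    have h0 := j17 d
    rcases jacobiSym.trichotomy d 17 with h | h | h
    · rw [if_pos (h0.1 h), h]
      norm_num
    · rw [if_neg (fun a => by rw [h0.2 a] at h; norm_num at h), h]
      norm_num
    · rw [if_neg (fun a => by rw [h0.2 a] at h; norm_num at h), h]
      norm_num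
  · change -((if d < 0 then -1 else 1) * ∏ p ∈ (21 : ℕ).primeFactors, hh 2 d p) =
      (if d < 0 then -1 else 1) * (if d % 3 = 1 then 1 else -1) *
        (if d % 7 = 3 ∨ d % 7 = 5 ∨ d % 7 = 6 then -1 else 1)
    rw [pf21, Finset.prod_pair (by norm_num)]
    have key' : ∀ s a b : ℤ, -(s * (a * b)) = s * -a * b := fun s a b => by ring
    rw [key']
    have h3 : -hh 2 d 3 = if d % 3 = 1 then 1 else -1 := by
      have e : hh 2 d 3 = if ((3 : ℕ) : ℤ) ∣ d then 1 else -(1 * jacobiSym d 3) := rfl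
      rw [e, j3]
      have c : ((3 : ℕ) : ℤ) = 3 := rfl
      rw [c]
      split_ifs <;> omega
    have h7 : hh 2 d 7 = if d % 7 = 3 ∨ d % 7 = 5 ∨ d % 7 = 6 then -1 else 1 := by
      have e : hh 2 d 7 = if ((7 : ℕ) : ℤ) ∣ d then 1 else -(-1 * jacobiSym d 7) := rfl
      rw [e, j7]
      have c : ((7 : ℕ) : ℤ) = 7 := rfl
      rw [c]
      split_ifs <;> omega
    rw [h3, h7]

end Pool.Agent.N970.AVP
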