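import Pool.Agent.N970.AVP.Jl
import Pool.Agent.N970.AVP.Jt
import Pool.Agent.N809.JT.Hj
import Pool.Agent.Y948.CQ.C2

/-!
# Products of twists of the three curves over multiquadratic fields: the main theorem
-/

set_option autoImplicit false

open Filter NumberField

namespace Pool.Agent.N970.AVP

open Pool.Agent.N856.JL.Av (Twist Disc UpToSq HasDensity curves eta)
open Pool.Agent.N919.BS (Fund)

theorem delta_bounds : 0.1443 < delta 0 ∧ delta 0 < 0.1445 ∧ 0.2096 < delta 1 ∧ delta 1 < 0.2098 ∧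
    0.1544 < delta 2 ∧ delta 2 < 0.1547 := by
  obtain ⟨h1, h2⟩ := Pool.Agent.N916.GB.eta_bounds
  obtain ⟨-, -, -, h3, h4⟩ := Pool.Agent.Y948.CQ.t_C2
  have e0 : delta 0 = Pool.Agent.N916.GB.eta / 2 := rfl
  have e1 : delta 1 = Pool.Agent.Y703.CQ.c2 / 2 := rfl
  have e2 : delta 2 = 137 / 256 * Pool.Agent.N916.GB.eta := rfl
  rw [e0, e1, e2]
  refine ⟨?_, ?_, ?_, ?_, ?_, ?_⟩ <;> linarith

/-- **the main theorem** -/
theorem main {ι : Type} [Fintype ι] [Nonempty ι] :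
    (∀ (r : ℕ) (d : Fin r → ℤ), Independent d → ∀ (j : ι → Fin 3) (e : ι → ℤ), (∀ i, e i ≠ 0) →
      Good d j e → ∀ (K : Type) [Field K] [NumberField K], IsMultiquadratic d K →
        Module.finrank ℚ K = 2 ^ r ∧ BSDZero K j e (∏ t, d t) r) ∧
    (∀ j : ι → Fin 3, Tendsto (fun X : ℕ =>
      (countFam (fun e : ι → ℤ => Good (Fin.elim0 : Fin 0 → ℤ) j e) X : ℝ) /
        (countFam (fun _ : ι → ℤ => True) X : ℝ)) atTop (nhds (∏ i, delta (j i)))) ∧
    (∀ j : Fin 3, Tendsto (fun X : ℕ =>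
      (countQuad (fun D => Good (fun _ : Fin 1 => D) (fun _ : ι => j) (fun _ => 1)) X : ℝ) /
        (countQuad (fun _ => True) X : ℝ)) atTop (nhds (delta j))) ∧
    (∀ j : ι → Fin 3, (∀ i, j i ≠ 2) → (∃ i, j i = 0) → (∃ i, j i = 1) → Tendsto (fun X : ℕ =>
      (countQuad (fun D => Good (fun _ : Fin 1 => D) j (fun _ => 1)) X : ℝ) /
        (countQuad (fun _ => True) X : ℝ)) atTop (nhds deltaJ)) ∧
    (∀ (j : ι → Fin 3) (D : ℤ), Fund D → D < 0 → (∀ i, Allowed (j i) D) →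
      (Good (fun _ : Fin 1 => D) j (fun _ => 1) ↔ NoOrderFour D)) ∧
    (∀ j : ι → Fin 3, (∀ i, j i ≠ 1) → Tendsto (fun X : ℕ =>
      (countQuad (fun D => (D < 0 ∧ ∀ i, Allowed (j i) D) ∧
        Good (fun _ : Fin 1 => D) j (fun _ => 1)) X : ℝ) /
        (countQuad (fun D => D < 0 ∧ ∀ i, Allowed (j i) D) X : ℝ)) atTop
      (nhds (∏' i : ℕ, (1 - (1 / 2 : ℝ) ^ (i + 1))))) ∧
    (∀ (r : ℕ) (d : Fin r → ℕ), (∀ t, Disc (d t)) →
      (∀ e : ι → ℕ, (∀ i, UpToSq Twist (e i)) →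
        HasDensity Disc (fun D => GoodN d fun i => e i * D) (eta ^ curves d e)) ∧
      (∀ e : ι → ℕ, (∀ i, UpToSq Disc (e i)) →
        HasDensity Twist (fun n => GoodN d fun i => e i * n) (eta ^ curves d e)) ∧
      (∀ e : ι → ℕ, (∀ i, UpToSq Twist (e i)) → GoodN d e →
        HasDensity Disc (fun D => GoodN (Fin.snoc d D : Fin (r + 1) → ℕ) e)
          (eta ^ curves d e))) ∧
    0.1443 < delta 0 ∧ delta 0 < 0.1445 ∧ 0.2096 < delta 1 ∧ delta 1 < 0.2098 ∧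
      0.1544 < delta 2 ∧ delta 2 < 0.1547 :=
  ⟨fun _ _ hi _ _ he hg K _ _ hK => bsd hi he hg K hK, fun j => dens_fam j, fun j => dens_quad j,
    fun _ h2 h0 h1 => dens01_quad Pool.Agent.N809.JT.hgJ h2 h0 h1,
    fun _ _ hD h0 ha => good_class hD h0 ha, fun _ hj => dens_class hj, fun _ _ hd => jl hd,
    delta_bounds⟩

end Pool.Agent.N970.AVP
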