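import Pool.Agent.N970.AVP.Gen
import Pool.Agent.R333.BR.LRel
import Mathlib.Analysis.Complex.CauchyIntegral

/-!
# The complete `L`-function over a number field from the `L`-function without some Euler factors
-/

set_option autoImplicit false

open NumberField IsDedekindDomain Filter Topology
open Pool.Agent.R433.MD Pool.Agent.H341R2.EC
open Pool.Agent.H921R2.TatePole (nm two_le_nm)

namespace Pool.Agent.N970.AVP

/-- the nonzero primes of `K` -/
abbrev Pr (K : Type) [Field K] [NumberField K] : Type := {P : Ideal (𝓞 K) // P.IsPrime ∧ P ≠ ⊥}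

/-- for every prime `P` the equation `M P` of `E` with coefficients in `𝓞 K` is minimal at `P` -/
def Minimal {K : Type} [Field K] [NumberField K] (E : WeierstrassCurve K)
    (M : Pr K → WeierstrassCurve (𝓞 K)) : Prop :=
  ∀ P, (∃ C : WeierstrassCurve.VariableChange K, C • E = (M P).map (algebraMap (𝓞 K) K)) ∧
    ∀ W : WeierstrassCurve (𝓞 K),
      (∃ C : WeierstrassCurve.VariableChange K, C • E = W.map (algebraMap (𝓞 K) K)) →
        ∀ n : ℕ, (M P).Δ ∈ P.1 ^ n → W.Δ ∈ P.1 ^ n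

open Classical in
/-- the Euler product with all Euler factors -/
noncomputable def euler {K : Type} [Field K] [NumberField K] (M : Pr K → WeierstrassCurve (𝓞 K))
    (s : ℂ) : ℂ :=
  ∏' P : Pr K, (1 - ((Nat.card (𝓞 K ⧸ P.1) : ℂ) -
      (Nat.card {xy : (𝓞 K ⧸ P.1) × (𝓞 K ⧸ P.1) //
        ((M P).map (Ideal.Quotient.mk P.1)).toAffine.Equation xy.1 xy.2} : ℂ)) *
        (Nat.card (𝓞 K ⧸ P.1) : ℂ) ^ (-s) +
      (if (M P).Δ ∈ P.1 then 0 else (Nat.card (𝓞 K ⧸ P.1) : ℂ) ^ (1 - 2 * s)))⁻¹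

/-- `f` is an analytic continuation of `L(E/K, s)`, with all Euler factors, to the connected open set
`U`, which contains `1` and the half plane `Re s > 3/2` -/
def Continues {K : Type} [Field K] [NumberField K] (E : WeierstrassCurve K) (U : Set ℂ)
    (f : ℂ → ℂ) : Prop :=
  IsOpen U ∧ IsConnected U ∧ (1 : ℂ) ∈ U ∧ {s : ℂ | 3 / 2 < s.re} ⊆ U ∧ AnalyticOnNhd ℂ f U ∧
    ∃ M : Pr K → WeierstrassCurve (𝓞 K), Minimal E M ∧ ∀ s : ℂ, 3 / 2 < s.re → f s = euler M s

section
variable {K : Type} [Field K] [NumberField K]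

/-- the two descriptions of the primes -/
def prEquiv (K : Type) [Field K] [NumberField K] : HeightOneSpectrum (𝓞 K) ≃ Pr K where
  toFun v := ⟨v.asIdeal, v.isPrime, v.ne_bot⟩
  invFun P := ⟨P.1, P.2.1, P.2.2⟩
  left_inv _ := rfl
  right_inv _ := rfl

theorem nm_eq (v : HeightOneSpectrum (𝓞 K)) : (nm v : ℕ) = Nat.card (𝓞 K ⧸ v.asIdeal) := rfl

theorem aff_eq (v : HeightOneSpectrum (𝓞 K)) (V : WeierstrassCurve (𝓞 K)) :
    aff (red v V) = Nat.card {xy : (𝓞 K ⧸ v.asIdeal) × (𝓞 K ⧸ v.asIdeal) //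
        (V.map (Ideal.Quotient.mk v.asIdeal)).toAffine.Equation xy.1 xy.2} := by
  unfold aff red
  refine Nat.card_congr (Equiv.subtypeEquivRight fun p => ?_)
  rw [WeierstrassCurve.Affine.equation_iff]

theorem euler_eq (M : Pr K → WeierstrassCurve (𝓞 K)) (s : ℂ) :
    euler M s = ∏' v : HeightOneSpectrum (𝓞 K), (lf (fun v => M (prEquiv K v)) s v)⁻¹ := by
  classical
  unfold euler
  rw [← (prEquiv K).tprod_eq]
  refine tprod_congr fun v => ?_
  congr 1
  unfold lf trc dlt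
  rw [aff_eq, nm_eq]
  push_cast
  change _ = 1 - ((Nat.card (𝓞 K ⧸ v.asIdeal) : ℂ) - _) * _ + _
  congr 1
  by_cases h : (M (prEquiv K v)).Δ ∈ v.asIdeal
  · have h' : (M (prEquiv K v)).Δ ∈ (prEquiv K v).1 := h
    rw [if_pos h, if_pos h', zero_mul]
  · have h' : (M (prEquiv K v)).Δ ∉ (prEquiv K v).1 := h
    rw [if_neg h, if_neg h', one_mul]
    rfl

theorem min_iff {E : WeierstrassCurve K} {M : Pr K → WeierstrassCurve (𝓞 K)} (h : Minimal E M)
    (v : HeightOneSpectrum (𝓞 K)) : IsMinAt E v (M (prEquiv K v)) := h (prEquiv K v)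

/-- the local factor at the good places -/
theorem lf_of_good {E : WeierstrassCurve K} (hE : E.IsElliptic) {W : WeierstrassCurve (𝓞 K)}
    (hW : IsModel E W) {V : HeightOneSpectrum (𝓞 K) → WeierstrassCurve (𝓞 K)}
    (hV : ∀ v, IsMinAt E v (V v)) (v : HeightOneSpectrum (𝓞 K)) (hv : W.Δ ∉ v.asIdeal) (s : ℂ) :
    lf V s v = 1 - (((nm v : ℤ) - (aff (red v W) : ℤ) : ℤ) : ℂ) * ((nm v : ℕ) : ℂ) ^ (-s) +
      ((nm v : ℕ) : ℂ) ^ (1 - 2 * s) := by
  classical
  have hWm : IsMinAt E v W := by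
    refine ⟨hW, fun W' _ n hn => ?_⟩
    rcases Nat.eq_zero_or_pos n with h0 | h0
    · rw [h0, pow_zero, Ideal.one_eq_top]
      exact Submodule.mem_top
    · exact absurd (Ideal.pow_le_self h0.ne' hn) hv
  obtain ⟨h1, h2⟩ := aff_minimal v hE hWm (hV v)
  unfold lf trc dlt
  rw [h1, if_neg fun h => hv (h2.2 h), one_mul]

/-- the zeros of an entire function are countable -/
theorem countable_zeros {P : ℂ → ℂ} (hP : Differentiable ℂ P) {z : ℂ} (hz : P z ≠ 0) :
    {s : ℂ | P s = 0}.Countable := by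
  have h1 : AnalyticOnNhd ℂ P Set.univ := fun s _ => hP.analyticAt s
  have h2 := h1.preimage_zero_mem_codiscreteWithin (x := z) hz (Set.mem_univ z) isConnected_univ
  have e : {s : ℂ | P s = 0}ᶜ = P ⁻¹' {0}ᶜ := rfl
  rw [← e] at h2
  have h3 : IsDiscrete ({s : ℂ | P s = 0} ∩ Set.univ) := isDiscrete_of_codiscreteWithin h2
  rw [Set.inter_univ] at h3
  exact (HereditarilyLindelofSpace.isLindelof _).countable_of_isDiscrete h3

/-- **the complete `L`-function from the `L`-function without some Euler factors** -/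
theorem complete {E : WeierstrassCurve K} (hE : E.IsElliptic) {W : WeierstrassCurve (𝓞 K)}
    (hW : IsModel E W) {N : 𝓞 K} (hN : N ≠ 0)
    (hbad : ∀ v : HeightOneSpectrum (𝓞 K), W.Δ ∈ v.asIdeal → N ∈ v.asIdeal) {F : ℂ → ℂ}
    (hF : Differentiable ℂ F) (hF1 : F 1 ≠ 0) {B : ℂ → HeightOneSpectrum (𝓞 K) → ℂ}
    (hB1 : ∀ s v, N ∈ v.asIdeal → B s v = 1)
    (hB2 : ∀ s v, N ∉ v.asIdeal → B s v = (1 - (((nm v : ℤ) - (aff (red v W) : ℤ) : ℤ) : ℂ) *
      ((nm v : ℕ) : ℂ) ^ (-s) + ((nm v : ℕ) : ℂ) ^ (1 - 2 * s))⁻¹)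
    (hP : ∀ s : ℂ, 3 / 2 < s.re → HasProd (B s) (F s)) :
    (∃ U f, Continues E U f) ∧ ∀ U f, Continues E U f → f 1 ≠ 0 := by
  classical
  set S := (finite_mem (K := K) hN).toFinset with hS
  have hmem : ∀ v, v ∈ S ↔ N ∈ v.asIdeal := fun v => (finite_mem (K := K) hN).mem_toFinset
  -- the product of the missing factors
  have key : ∀ V : HeightOneSpectrum (𝓞 K) → WeierstrassCurve (𝓞 K), (∀ v, IsMinAt E v (V v)) →
      ∀ s : ℂ, 3 / 2 < s.re → (∏' v, (lf V s v)⁻¹) * ∏ v ∈ S, lf V s v = F s := by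
    intro V hV s hs
    have h1 := compare (hasProd_lf E hE V hV hs).1 (hP s hs) S fun v hv => by
      have hv' : N ∉ v.asIdeal := fun h => hv ((hmem v).2 h)
      rw [hB2 s v hv', lf_of_good hE hW hV v (fun h => hv' (hbad v h)) s]
    rw [Finset.prod_congr rfl (g := fun _ => (1 : ℂ)) (fun v hv => hB1 s v ((hmem v).1 hv)),
      Finset.prod_const_one, mul_one, Finset.prod_inv_distrib] at h1
    have h2 : ∏ v ∈ S, lf V s v ≠ 0 := Finset.prod_ne_zero_iff.2 fun v _ => lf_ne_zero V hs v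
    rw [h1, mul_assoc, inv_mul_cancel₀ h2, mul_one]
  have hdiff : ∀ V : HeightOneSpectrum (𝓞 K) → WeierstrassCurve (𝓞 K),
      Differentiable ℂ fun s => ∏ v ∈ S, lf V s v := fun V =>
    Differentiable.fun_finsetProd fun v _ => differentiable_lf V v
  have hone : ∀ V : HeightOneSpectrum (𝓞 K) → WeierstrassCurve (𝓞 K),
      ∏ v ∈ S, lf V 1 v ≠ 0 := fun V =>
    Finset.prod_ne_zero_iff.2 fun v _ => Pool.Agent.R333.BR.lf_one V v
  constructor
  · obtain ⟨V, hV⟩ := exists_minimal E hE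
    set P : ℂ → ℂ := fun s => ∏ v ∈ S, lf V s v with hPdef
    have hc := countable_zeros (hdiff V) (hone V)
    have hcont : Continuous P := (hdiff V).continuous
    refine ⟨{s : ℂ | P s = 0}ᶜ, fun s => F s / P s, ?_, ?_, hone V, ?_, ?_,
      fun Q => V ((prEquiv K).symm Q), fun Q => hV ((prEquiv K).symm Q), ?_⟩
    · exact (isClosed_eq hcont continuous_const).isOpen_compl
    · exact hc.isConnected_compl_of_one_lt_rank (Complex.rank_real_complex ▸ Nat.one_lt_ofNat)
    · intro s hs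
      exact Finset.prod_ne_zero_iff.2 fun v _ => lf_ne_zero V hs v
    · intro s hs
      exact (hF.analyticAt s).fun_div ((hdiff V).analyticAt s) hs
    · intro s hs
      have h1 : P s ≠ 0 := Finset.prod_ne_zero_iff.2 fun v _ => lf_ne_zero V hs v
      rw [euler_eq, div_eq_iff h1]
      exact (key V hV s hs).symm
  · rintro U f ⟨hU, hUc, h1U, hHU, hf, M, hM, hfM⟩
    have hV := fun v => min_iff hM v
    set V : HeightOneSpectrum (𝓞 K) → WeierstrassCurve (𝓞 K) := fun v => M (prEquiv K v) with hVd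
    have hg : AnalyticOnNhd ℂ (fun s => f s * ∏ v ∈ S, lf V s v) U := fun s hs =>
      (hf s hs).fun_mul ((hdiff V).analyticAt s)
    have hF' : AnalyticOnNhd ℂ F U := fun s _ => hF.analyticAt s
    have h2U : (2 : ℂ) ∈ U := hHU (by norm_num)
    have heq : (fun s => f s * ∏ v ∈ S, lf V s v) =ᶠ[𝓝 (2 : ℂ)] F := by
      have h2 : {s : ℂ | 3 / 2 < s.re} ∈ 𝓝 (2 : ℂ) :=
        (isOpen_lt continuous_const Complex.continuous_re).mem_nhds (by norm_num)
      filter_upwards [h2] with s hs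
      rw [hfM s hs, euler_eq]
      exact key V hV s hs
    have h3 := hg.eqOn_of_preconnected_of_eventuallyEq hF' hUc.isPreconnected h2U heq h1U
    intro h0
    apply hF1
    rw [← h3]
    simp only [h0, zero_mul]

end

end Pool.Agent.N970.AVP
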