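import Pool.Agent.N970.AVP.Md
import Pool.Agent.N970.AVP.Main

/-!
# The twists of the three curves over multiquadratic fields: the complete `L`-function
-/

set_option autoImplicit false

open NumberField IsDedekindDomain Filter Topology
open Pool.Agent.R433.MD Pool.Agent.H341R2.EC
open Pool.Agent.H921R2.TatePole (nm two_le_nm)

namespace Pool.Agent.N970.AVP

section
variable {K : Type} [Field K] [NumberField K]

/-- the integral model -/
def W0 (K : Type) [Field K] [NumberField K] (j : Fin 3) (e : ℤ) : WeierstrassCurve (𝓞 K) :=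
  ⟨0, 0, 0, (A j e : 𝓞 K), (B j e : 𝓞 K)⟩

theorem W0_model (j : Fin 3) (e : ℤ) : IsModel (E K j e) (W0 K j e) := by
  refine ⟨1, ?_⟩
  rw [one_smul]
  unfold E W0
  ext
  · exact (map_zero _).symm
  · exact (map_zero _).symm
  · exact (map_zero _).symm
  · exact (map_intCast _ _).symm
  · exact (map_intCast _ _).symm

theorem W0_disc (j : Fin 3) (e : ℤ) :
    (W0 K j e).Δ = ((-16 * (4 * A j e ^ 3 + 27 * B j e ^ 2) : ℤ) : 𝓞 K) := by
  unfold W0 WeierstrassCurve.Δ WeierstrassCurve.b₂ WeierstrassCurve.b₄ WeierstrassCurve.b₆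
    WeierstrassCurve.b₈
  push_cast
  ring

theorem ell (j : Fin 3) {e : ℤ} (he : e ≠ 0) : (E K j e).IsElliptic := by
  have h := disc_ne j he
  constructor
  rw [isUnit_iff_ne_zero]
  have e1 : (E K j e).Δ = ((-16 * (4 * A j e ^ 3 + 27 * B j e ^ 2) : ℤ) : K) := by
    unfold E WeierstrassCurve.Δ WeierstrassCurve.b₂ WeierstrassCurve.b₄ WeierstrassCurve.b₆
      WeierstrassCurve.b₈
    push_cast
    ring
  rw [e1]
  exact_mod_cast mul_ne_zero (by norm_num) h

theorem aff_W0 (j : Fin 3) (e : ℤ) (v : HeightOneSpectrum (𝓞 K)) :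
    aff (red v (W0 K j e)) = Nat.card {z : (𝓞 K ⧸ v.asIdeal) × (𝓞 K ⧸ v.asIdeal) //
      z.2 ^ 2 = z.1 ^ 3 + (A j e : 𝓞 K ⧸ v.asIdeal) * z.1 + (B j e : 𝓞 K ⧸ v.asIdeal)} := by
  unfold aff
  refine Nat.card_congr (Equiv.subtypeEquivRight fun p => ?_)
  have h1 : (red v (W0 K j e)).a₁ = 0 := map_zero _
  have h2 : (red v (W0 K j e)).a₂ = 0 := map_zero _
  have h3 : (red v (W0 K j e)).a₃ = 0 := map_zero _
  have h4 : (red v (W0 K j e)).a₄ = (A j e : 𝓞 K ⧸ v.asIdeal) := map_intCast _ _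
  have h6 : (red v (W0 K j e)).a₆ = (B j e : 𝓞 K ⧸ v.asIdeal) := map_intCast _ _
  rw [h1, h2, h3, h4, h6]
  simp only [zero_mul, add_zero]

/-- **the complete `L`-function over a multiquadratic field** -/
theorem fullL {r : ℕ} {d : Fin r → ℤ} (hi : Independent d) (j : Fin 3) {e : ℤ} (he : e ≠ 0)
    (hg : ∀ T : Finset (Fin r), RankZeroShaTwo j (e * ∏ t ∈ T, d t)) (hK : IsMultiquadratic d K) :
    (∃ U f, Continues (E K j e) U f) ∧ ∀ U f, Continues (E K j e) U f → f 1 ≠ 0 := by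
  classical
  obtain ⟨-, hfin, hrk, ⟨F, hF⟩, hord, -⟩ := bsd (ι := Unit) hi (j := fun _ => j)
    (e := fun _ => e) (fun _ => he) (fun _ T => hg T) K hK
  have hF1 : F 1 ≠ 0 := by
    have h1 := hord F hF
    rw [hrk, Nat.cast_zero] at h1
    exact (hF.1.analyticAt 1).analyticOrderAt_eq_zero.1 h1
  have hd0 : (∏ t, d t) ≠ 0 := by
    refine Finset.prod_ne_zero_iff.2 fun t _ h0 => hi {t} (Finset.singleton_nonempty t) ?_
    rw [Finset.prod_singleton, h0]
    exact ⟨0, rfl⟩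
  have hN0 : ((3570 * e * (∏ t, d t) : ℤ) : 𝓞 K) ≠ 0 := by
    have : (3570 * e * (∏ t, d t) : ℤ) ≠ 0 := mul_ne_zero (mul_ne_zero (by norm_num) he) hd0
    exact_mod_cast this
  refine complete (ell j he) (W0_model j e) hN0 (fun v hv => ?_) hF.1 hF1
    (B := fun s v => if ((3570 * e * (∏ t, d t) : ℤ) : 𝓞 K) ∈ v.asIdeal then 1 else
      (1 - (av K (A j e) (B j e) v : ℂ) * (qv K v : ℂ) ^ (-s) + (qv K v : ℂ) ^ (1 - 2 * s))⁻¹)
    (fun s v hv => if_pos hv) (fun s v hv => ?_) fun s hs => ?_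
  · refine bad_of j v ?_
    rw [W0_disc] at hv
    have hp := v.isPrime
    have h1 : ((2 * (4 * A j e ^ 3 + 27 * B j e ^ 2) * (∏ t, d t) : ℤ) : 𝓞 K) ^ 4 ∈ v.asIdeal := by
      have e1 : ((2 * (4 * A j e ^ 3 + 27 * B j e ^ 2) * (∏ t, d t) : ℤ) : 𝓞 K) ^ 4 =
          ((-16 * (4 * A j e ^ 3 + 27 * B j e ^ 2) : ℤ) : 𝓞 K) *
            ((-(4 * A j e ^ 3 + 27 * B j e ^ 2) ^ 3 * (∏ t, d t) ^ 4 : ℤ) : 𝓞 K) := by
        push_cast
        ring
      rw [e1]
      exact Ideal.mul_mem_right _ _ hv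
    exact hp.mem_of_pow_mem 4 h1
  · rw [if_neg hv, aff_W0]
    rfl
  · have h2 := hF.2 s hs
    convert h2 using 3 with v
    · simp only [Finset.univ_unique, Finset.prod_singleton]
    · simp only [Finset.univ_unique, Finset.prod_singleton]

open Classical in
/-- the rank conjecture over `K` for the elliptic curve `E`, with the rank and the order zero, in the
form of Q1: `E(K)` is finite, `L(E/K, s)` has an analytic continuation to a connected open set which
contains `1`, and every such continuation is not zero at `1`, so its order at `1` and the rank of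
`E(K)` are congruent modulo `2`; and `Ш(E/K)[2^∞]` is finite and killed by `2 ^ r` -/
def RankPart (E : WeierstrassCurve K) (r : ℕ) : Prop :=
  Finite E.toAffine.Point ∧ Module.finrank ℤ E.toAffine.Point = 0 ∧ (∃ U f, Continues E U f) ∧
    (∀ U f, Continues E U f →
      f 1 ≠ 0 ∧ Even (analyticOrderNatAt f 1 + Module.finrank ℤ E.toAffine.Point)) ∧
    {y : Pool.Agent.TH841.NF.D.Sha E | ∃ k : ℕ, (2 ^ k : ℕ) • y = 0}.Finite ∧
      ∀ (k : ℕ) (y : Pool.Agent.TH841.NF.D.Sha E), (2 ^ k : ℕ) • y = 0 → (2 ^ r : ℕ) • y = 0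

end

/-- **the rank conjecture with the complete `L`-function** -/
theorem rankPart {r : ℕ} {d : Fin r → ℤ} (hi : Independent d) (j : Fin 3) {e : ℤ} (he : e ≠ 0)
    (hg : ∀ T : Finset (Fin r), RankZeroShaTwo j (e * ∏ t ∈ T, d t)) (K : Type) [Field K]
    [NumberField K] (hK : IsMultiquadratic d K) :
    Module.finrank ℚ K = 2 ^ r ∧ RankPart (E K j e) r := by
  classical
  obtain ⟨hdeg, hfin, hrk, -, -, hsha⟩ := bsd (ι := Unit) hi (j := fun _ => j)
    (e := fun _ => e) (fun _ => he) (fun _ T => hg T) K hK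
  obtain ⟨h1, h2⟩ := fullL hi j he hg hK
  have hfinE : Finite (E K j e).toAffine.Point :=
    Finite.of_equiv _ (Equiv.funUnique Unit (E K j e).toAffine.Point)
  have hrk0 : Module.finrank ℤ (E K j e).toAffine.Point = 0 := by
    have h5 : Module.finrank ℤ (Unit → (E K j e).toAffine.Point) =
        Module.finrank ℤ (E K j e).toAffine.Point :=
      (LinearEquiv.funUnique Unit ℤ (E K j e).toAffine.Point).finrank_eq
    rw [← h5]
    exact hrk
  refine ⟨hdeg, hfinE, hrk0, h1, fun U f hf => ⟨h2 U f hf, ?_⟩, hsha ()⟩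
  have h3 : AnalyticAt ℂ f 1 := hf.2.2.2.2.1 1 hf.2.2.1
  have h4 : analyticOrderAt f 1 = 0 := h3.analyticOrderAt_eq_zero.2 (h2 U f hf)
  have h5 : analyticOrderNatAt f 1 = 0 := by
    unfold analyticOrderNatAt
    rw [h4]
    rfl
  rw [h5, hrk0]
  exact Even.zero

end Pool.Agent.N970.AVP
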