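import Pool.Agent.N970.AVP.Py
import Pool.Agent.N970.AVP.Mz

/-!
# The parity conjecture for products of twists of the three curves over multiquadratic fields
-/

set_option autoImplicit false

open NumberField IsDedekindDomain Filter Topology

namespace Pool.Agent.N970.AVP

open Pool.Agent.N919.BS (NS NF Fund)

/-- the completed `L`-function for the number `n` of the Gamma factors and the conductor `N` -/
noncomputable def LamA (N n : ℕ) (F : ℂ → ℂ) (s : ℂ) : ℂ :=
  (N : ℂ) ^ (s / 2) * ((2 * (Real.pi : ℂ)) ^ (-s) * Complex.Gamma s) ^ n * F s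

/-- `w` is the sign in the functional equation of `L(A/K, s)` -/
def IsSign {ι : Type} [Fintype ι] (K : Type) [Field K] [NumberField K] (j : ι → Fin 3)
    (e : ι → ℤ) (w : ℤ) : Prop :=
  ∃ (N : ℕ) (f : ι → ℂ → ℂ) (M : ι → Pr K → WeierstrassCurve (𝓞 K)), 0 < N ∧
    (∀ i, Differentiable ℂ (f i) ∧ Minimal (E K (j i) (e i)) (M i) ∧
      ∀ s : ℂ, 3 / 2 < s.re → f i s = euler (M i) s) ∧
    ∀ s : ℂ, 0 < s.re → s.re < 2 →
      LamA N (Fintype.card ι * Module.finrank ℚ K) (fun z => ∏ i, f i z) s =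
        w * LamA N (Fintype.card ι * Module.finrank ℚ K) (fun z => ∏ i, f i z) (2 - s)

open Classical in
/-- the root number of the twist `C_{j, m}` by any integer `m ≠ 0`: that of `C_{j, d}`, where `d` is the
squarefree integer with `m = d k²` -/
noncomputable def rootNumberZ (j : Fin 3) (m : ℤ) : ℤ :=
  if h : ∃ d k : ℤ, Squarefree d ∧ k ≠ 0 ∧ m = d * k ^ 2 then rootNumber j h.choose else 1

/-- the root number of `A` over `K`: the product of the root numbers of the curves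
`C_{j_i, e_i ∏_{t ∈ T} d_t}` over `ℚ`, the factors of the Weil restriction of `A` from `K` to `ℚ` -/
noncomputable def rootNumberA {ι : Type} [Fintype ι] {r : ℕ} (d : Fin r → ℤ) (j : ι → Fin 3)
    (e : ι → ℤ) : ℤ :=
  ∏ i, ∏ T : Finset (Fin r), rootNumberZ (j i) (e i * ∏ t ∈ T, d t)

open Classical in
/-- the parity conjecture for `A` over `K` -/
def ParityZero {ι : Type} [Fintype ι] (K : Type) [Field K] [NumberField K] {r : ℕ}
    (d : Fin r → ℤ) (j : ι → Fin 3) (e : ι → ℤ) : Prop :=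
  Finite (AK K j e) ∧ Module.finrank ℤ (AK K j e) = 0 ∧
    (-1) ^ Module.finrank ℤ (AK K j e) = rootNumberA d j e ∧
    (∀ w : ℤ, IsSign K j e w → (-1) ^ Module.finrank ℤ (AK K j e) = w) ∧
    ∀ i, {y : Pool.Agent.TH841.NF.D.Sha (E K (j i) (e i)) | ∃ k : ℕ, (2 ^ k : ℕ) • y = 0}.Finite ∧
      ∀ (k : ℕ) (y : Pool.Agent.TH841.NF.D.Sha (E K (j i) (e i))), (2 ^ k : ℕ) • y = 0 →
        (2 ^ r : ℕ) • y = 0

theorem rootZ_one (j : Fin 3) {m : ℤ} (h : RankZeroShaTwo j m) : rootNumberZ j m = 1 := by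
  unfold rootNumberZ
  by_cases hx : ∃ d k : ℤ, Squarefree d ∧ k ≠ 0 ∧ m = d * k ^ 2
  · rw [dif_pos hx]
    obtain ⟨k, hs, hk, e⟩ := hx.choose_spec
    refine root_one j hs ((rz_scale j hs.ne_zero hk).1 ?_)
    rw [← e]
    exact h
  · rw [dif_neg hx]

theorem sign_one {ι : Type} [Fintype ι] {r : ℕ} {d : Fin r → ℤ} (hi : Independent d)
    {j : ι → Fin 3} {e : ι → ℤ} (he : ∀ i, e i ≠ 0) (hg : Good d j e) (K : Type) [Field K]
    [NumberField K] (hK : IsMultiquadratic d K) {w : ℤ} (hw : IsSign K j e w) : w = 1 := by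
  obtain ⟨N, f, M, hN, hf, hfe⟩ := hw
  have h5 : ∀ i, f i 1 ≠ 0 := by
    intro i
    obtain ⟨-, -, -, h4, -⟩ := (rankPart hi (j i) (he i) (hg i) K hK).2
    exact (h4 Set.univ (f i) ⟨isOpen_univ, isConnected_univ, Set.mem_univ _, Set.subset_univ _,
      fun s _ => (hf i).1.analyticAt s, M i, (hf i).2.1, (hf i).2.2⟩).1
  have h6 := hfe 1 (by norm_num) (by norm_num)
  have h7 : (2 : ℂ) - 1 = 1 := by norm_num
  rw [h7] at h6
  have h8 : LamA N (Fintype.card ι * Module.finrank ℚ K) (fun z => ∏ i, f i z) 1 ≠ 0 := by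
    unfold LamA
    refine mul_ne_zero (mul_ne_zero ?_ (pow_ne_zero _ (mul_ne_zero ?_ ?_)))
      (Finset.prod_ne_zero_iff.2 fun i _ => h5 i)
    · exact (Complex.cpow_ne_zero_iff_of_exponent_ne_zero (by norm_num)).2
        (by exact_mod_cast hN.ne')
    · exact (Complex.cpow_ne_zero_iff_of_exponent_ne_zero (by norm_num)).2
        (mul_ne_zero two_ne_zero (by exact_mod_cast Real.pi_ne_zero))
    · exact Complex.Gamma_ne_zero_of_re_pos (by norm_num)
  have h9 : (w : ℂ) = 1 := by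
    have h10 : (1 : ℂ) * LamA N (Fintype.card ι * Module.finrank ℚ K) (fun z => ∏ i, f i z) 1 =
        w * LamA N (Fintype.card ι * Module.finrank ℚ K) (fun z => ∏ i, f i z) 1 := by
      rw [one_mul]
      exact h6
    exact (mul_right_cancel₀ h8 h10).symm
  exact_mod_cast h9

theorem parityA {ι : Type} [Fintype ι] {r : ℕ} {d : Fin r → ℤ} (hi : Independent d)
    {j : ι → Fin 3} {e : ι → ℤ} (he : ∀ i, e i ≠ 0) (hg : Good d j e) (K : Type) [Field K]
    [NumberField K] (hK : IsMultiquadratic d K) :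
    Module.finrank ℚ K = 2 ^ r ∧ ParityZero K d j e := by
  obtain ⟨h0, h1, h2, -, -, h3⟩ := bsd hi he hg K hK
  refine ⟨h0, h1, h2, ?_, fun w hw => ?_, h3⟩
  · have h4 : rootNumberA d j e = 1 :=
      Finset.prod_eq_one fun i _ => Finset.prod_eq_one fun T _ => rootZ_one (j i) (hg i T)
    rw [h4, h2, pow_zero]
  · rw [sign_one hi he hg K hK hw, h2, pow_zero]

/-- **the main theorem on the parity conjecture for products** -/
theorem mainA {ι : Type} [Fintype ι] [Nonempty ι] :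
    (∀ (r : ℕ) (d : Fin r → ℤ), Independent d → ∀ (j : ι → Fin 3) (e : ι → ℤ), (∀ i, e i ≠ 0) →
      Good d j e → ∀ (K : Type) [Field K] [NumberField K], IsMultiquadratic d K →
        Module.finrank ℚ K = 2 ^ r ∧ ParityZero K d j e) ∧
    (∀ j : ι → Fin 3, Tendsto (fun X : ℕ =>
      (countFam (fun e : ι → ℤ => Good (Fin.elim0 : Fin 0 → ℤ) j e) X : ℝ) /
        (countFam (fun _ : ι → ℤ => True) X : ℝ)) atTop (nhds (∏ i, delta (j i)))) ∧
    (∀ j : ι → Fin 3, Tendsto (fun X : ℕ =>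
      (countQuad (fun D => Good (fun _ : Fin 1 => D) j (fun _ => 1)) X : ℝ) /
        (countQuad (fun _ => True) X : ℝ)) atTop (nhds (deltaS (Finset.univ.image j)))) ∧
    (∀ (j : ι → Fin 3) (D : ℤ), Fund D → D < 0 → (∀ i, Allowed (j i) D) →
      (Good (fun _ : Fin 1 => D) j (fun _ => 1) ↔ NoOrderFour D)) ∧
    (∀ j : ι → Fin 3, (∀ i, j i ≠ 1) → Tendsto (fun X : ℕ =>
      (countQuad (fun D => (D < 0 ∧ ∀ i, Allowed (j i) D) ∧
        Good (fun _ : Fin 1 => D) j (fun _ => 1)) X : ℝ) /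
        (countQuad (fun D => D < 0 ∧ ∀ i, Allowed (j i) D) X : ℝ)) atTop
      (nhds (∏' i : ℕ, (1 - (1 / 2 : ℝ) ^ (i + 1))))) ∧
    0.1443 < delta 0 ∧ delta 0 < 0.1445 ∧ 0.2096 < delta 1 ∧ delta 1 < 0.2098 ∧
      0.1544 < delta 2 ∧ delta 2 < 0.1547 := by
  obtain ⟨-, h2, h3, h4, h5, -, h6⟩ := mainZ (ι := ι) totF
  exact ⟨fun _ _ hi _ _ he hg K _ _ hK => parityA hi he hg K hK, h2, h3, h4, h5, h6⟩

end Pool.Agent.N970.AVP
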