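import Pool.Agent.N970.AVP.Lr
import Pool.Agent.N970.AVP.Pa

/-!
# The parity conjecture with the product of the local root numbers
-/

set_option autoImplicit false

open NumberField IsDedekindDomain Filter Topology

namespace Pool.Agent.N970.AVP

open Pool.Agent.N919.BS (NS NF Fund core)

theorem rp_eq (j : Fin 3) {d : ℤ} (hs : Squarefree d) : rootProd j d = rootNumber j d :=
  root_explicit j hs

theorem ns_congr {P Q : ℤ → Prop} (h : ∀ d, Squarefree d → (P d ↔ Q d)) (X : ℕ) :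
    NS P X = NS Q X := by
  unfold NS
  refine congrArg Finset.card (Finset.ext fun d => ?_)
  simp only [Finset.mem_filter]
  exact ⟨fun a => ⟨a.1, a.2.1, (h d a.2.1).1 a.2.2⟩, fun a => ⟨a.1, a.2.1, (h d a.2.1).2 a.2.2⟩⟩

theorem nf_congr {P Q : ℤ → Prop} (h : ∀ d, Squarefree d → (P d ↔ Q d)) (X : ℕ) :
    NF P X = NF Q X := by
  unfold NF
  refine congrArg Finset.card (Finset.ext fun D => ?_)
  simp only [Finset.mem_filter]
  exact ⟨fun a => ⟨a.1, a.2.1, (h _ (fund_sq a.2.1).1).1 a.2.2⟩,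
    fun a => ⟨a.1, a.2.1, (h _ (fund_sq a.2.1).1).2 a.2.2⟩⟩

/-- **the main theorem on the parity conjecture** -/
theorem mainP2 :
    (∀ (j : Fin 3) (d : ℤ), Squarefree d → RankZeroShaTwo j d →
      rootProd j d = 1 ∧ Parity (E ℚ j d) ∧ RankQ (E ℚ j d)) ∧
    (∀ j : Fin 3,
      Tendsto (fun X : ℕ => (NS (RankZeroShaTwo j) X : ℝ) / (NS (fun _ => True) X : ℝ))
        atTop (nhds (delta j)) ∧
      Tendsto (fun X : ℕ => (NF (RankZeroShaTwo j) X : ℝ) / (NF (fun _ => True) X : ℝ))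
        atTop (nhds (delta j)) ∧
      Tendsto (fun X : ℕ => (NS (RankZeroShaTwo j) X : ℝ) /
        (NS (fun d => rootProd j d = 1) X : ℝ)) atTop (nhds (2 * delta j)) ∧
      Tendsto (fun X : ℕ => (NF (RankZeroShaTwo j) X : ℝ) /
        (NF (fun d => rootProd j d = 1) X : ℝ)) atTop (nhds (2 * delta j))) ∧
    (∀ S : Finset (Fin 3), S.Nonempty →
      Tendsto (fun X : ℕ => (NS (fun d => ∀ j ∈ S, RankZeroShaTwo j d) X : ℝ) /
        (NS (fun _ => True) X : ℝ)) atTop (nhds (deltaS S)) ∧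
      Tendsto (fun X : ℕ => (NF (fun d => ∀ j ∈ S, RankZeroShaTwo j d) X : ℝ) /
        (NF (fun _ => True) X : ℝ)) atTop (nhds (deltaS S))) ∧
    (∀ (j : Fin 3) (D : ℤ), Fund D → D < 0 → Allowed j D →
      (RankZeroShaTwo j D ↔ NoOrderFour D)) ∧
    0.1443 < delta 0 ∧ delta 0 < 0.1445 ∧ 0.2096 < delta 1 ∧ delta 1 < 0.2098 ∧
      0.1544 < delta 2 ∧ delta 2 < 0.1547 := by
  obtain ⟨-, h2, h3, h4, h5⟩ := mainP
  refine ⟨fun j d hs h => ?_, fun j => ?_, h3, h4, h5⟩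
  · rw [rp_eq j hs]
    exact concl hs h
  · obtain ⟨a, b, c, e⟩ := h2 j
    have hc : ∀ d, Squarefree d → (rootProd j d = 1 ↔ rootNumber j d = 1) := fun d hs => by
      rw [rp_eq j hs]
    refine ⟨a, b, ?_, ?_⟩
    · refine c.congr fun X => ?_
      rw [ns_congr hc X]
    · refine e.congr fun X => ?_
      rw [nf_congr hc X]

open Classical in
/-- the root number of the twist `C_{j, m}` by any integer `m ≠ 0` -/
noncomputable def rootZ (j : Fin 3) (m : ℤ) : ℤ :=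
  if h : ∃ d k : ℤ, Squarefree d ∧ k ≠ 0 ∧ m = d * k ^ 2 then rootProd j h.choose else 1

theorem rootZ_eq (j : Fin 3) (m : ℤ) : rootZ j m = rootNumberZ j m := by
  unfold rootZ rootNumberZ
  by_cases h : ∃ d k : ℤ, Squarefree d ∧ k ≠ 0 ∧ m = d * k ^ 2
  · rw [dif_pos h, dif_pos h]
    obtain ⟨k, hs, -, -⟩ := h.choose_spec
    exact rp_eq j hs
  · rw [dif_neg h, dif_neg h]

/-- the root number of `A` over `K` -/
noncomputable def rootA {ι : Type} [Fintype ι] {r : ℕ} (d : Fin r → ℤ) (j : ι → Fin 3)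
    (e : ι → ℤ) : ℤ :=
  ∏ i, ∏ T : Finset (Fin r), rootZ (j i) (e i * ∏ t ∈ T, d t)

open Classical in
/-- the parity conjecture for `A` over `K` -/
def ParityZ {ι : Type} [Fintype ι] (K : Type) [Field K] [NumberField K] {r : ℕ}
    (d : Fin r → ℤ) (j : ι → Fin 3) (e : ι → ℤ) : Prop :=
  Finite (AK K j e) ∧ Module.finrank ℤ (AK K j e) = 0 ∧
    (-1) ^ Module.finrank ℤ (AK K j e) = rootA d j e ∧
    (∀ w : ℤ, IsSign K j e w → (-1) ^ Module.finrank ℤ (AK K j e) = w) ∧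
    ∀ i, {y : Pool.Agent.TH841.NF.D.Sha (E K (j i) (e i)) | ∃ k : ℕ, (2 ^ k : ℕ) • y = 0}.Finite ∧
      ∀ (k : ℕ) (y : Pool.Agent.TH841.NF.D.Sha (E K (j i) (e i))), (2 ^ k : ℕ) • y = 0 →
        (2 ^ r : ℕ) • y = 0

theorem parityZ {ι : Type} [Fintype ι] {r : ℕ} {d : Fin r → ℤ} (hi : Independent d)
    {j : ι → Fin 3} {e : ι → ℤ} (he : ∀ i, e i ≠ 0) (hg : Good d j e) (K : Type) [Field K]
    [NumberField K] (hK : IsMultiquadratic d K) :
    Module.finrank ℚ K = 2 ^ r ∧ ParityZ K d j e := by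
  obtain ⟨h0, h1, h2, h3, h4, h5⟩ := parityA hi he hg K hK
  refine ⟨h0, h1, h2, ?_, h4, h5⟩
  have e : rootA d j e = rootNumberA d j e := by
    unfold rootA rootNumberA
    exact Finset.prod_congr rfl fun i _ => Finset.prod_congr rfl fun T _ => rootZ_eq _ _
  rw [e]
  exact h3

/-- **the main theorem on the parity conjecture for products** -/
theorem mainA2 {ι : Type} [Fintype ι] [Nonempty ι] :
    (∀ (r : ℕ) (d : Fin r → ℤ), Independent d → ∀ (j : ι → Fin 3) (e : ι → ℤ), (∀ i, e i ≠ 0) →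
      Good d j e → ∀ (K : Type) [Field K] [NumberField K], IsMultiquadratic d K →
        Module.finrank ℚ K = 2 ^ r ∧ ParityZ K d j e) ∧
    (∀ j : ι → Fin 3, Tendsto (fun X : ℕ =>
      (countFam (fun e : ι → ℤ => Good (Fin.elim0 : Fin 0 → ℤ) j e) X : ℝ) /
        (countFam (fun _ : ι → ℤ => True) X : ℝ)) atTop (nhds (∏ i, delta (j i)))) ∧
    (∀ j : ι → Fin 3, Tendsto (fun X : ℕ =>
      (countQuad (fun D => Good (fun _ : Fin 1 => D) j (fun _ => 1)) X : ℝ) /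
        (countQuad (fun _ => True) X : ℝ)) atTop (nhds (deltaS (Finset.univ.image j)))) ∧
    (∀ (j : ι → Fin 3) (D : ℤ), Fund D → D < 0 → (∀ i, Allowed (j i) D) →
      (Good (fun _ : Fin 1 => D) j (fun _ => 1) ↔ NoOrderFour D)) ∧
    (∀ j : ι → Fin 3, (∀ i, j i ≠ 1) → Tendsto (fun X : ℕ =>
      (countQuad (fun D => (D < 0 ∧ ∀ i, Allowed (j i) D) ∧
        Good (fun _ : Fin 1 => D) j (fun _ => 1)) X : ℝ) /
        (countQuad (fun D => D < 0 ∧ ∀ i, Allowed (j i) D) X : ℝ)) atTop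
      (nhds (∏' i : ℕ, (1 - (1 / 2 : ℝ) ^ (i + 1))))) ∧
    0.1443 < delta 0 ∧ delta 0 < 0.1445 ∧ 0.2096 < delta 1 ∧ delta 1 < 0.2098 ∧
      0.1544 < delta 2 ∧ delta 2 < 0.1547 := by
  obtain ⟨-, h⟩ := mainA (ι := ι)
  exact ⟨fun _ _ hi _ _ he hg K _ _ hK => parityZ hi he hg K hK, h⟩

end Pool.Agent.N970.AVP
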