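import Pool.Agent.N970.AVP.Gen
import Pool.Agent.Y73.QMQ1.Gal

/-!
# Products of twists of the three curves over multiquadratic fields: the rank conjecture

Adapted from `Pool.Agent.N856.JL.Av` (helper856).
-/

set_option autoImplicit false

open NumberField IsDedekindDomain

namespace Pool.Agent.N970.AVP

/-- `ℚ(√d_1, …, √d_r)` has degree `2 ^ r` -/
def Independent {r : ℕ} (d : Fin r → ℤ) : Prop :=
  ∀ T : Finset (Fin r), T.Nonempty → ¬ IsSquare (∏ t ∈ T, d t)

/-- `K = ℚ(√d_1, …, √d_r)` -/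
def IsMultiquadratic {r : ℕ} (d : Fin r → ℤ) (K : Type) [Field K] [NumberField K] : Prop :=
  ∃ x : Fin r → K, (∀ t, x t ^ 2 = (d t : K)) ∧ IntermediateField.adjoin ℚ (Set.range x) = ⊤

/-- the group `A(K)` for the product `A` of the curves `E_{j i, e i}` -/
abbrev AK {ι : Type} (K : Type) [Field K] (j : ι → Fin 3) (e : ι → ℤ) : Type :=
  ∀ i, (E K (j i) (e i)).toAffine.Point

/-- the number `q_v` of elements of the residue field of a finite place `v` of `K` -/
noncomputable def qv (K : Type) [Field K] (v : HeightOneSpectrum (𝓞 K)) : ℕ :=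
  Nat.card (𝓞 K ⧸ v.asIdeal)

/-- `a_v = q_v + 1 - #E(k_v)` for `E : y² = x³ + a x + b`, that is `q_v` minus the number of affine
points over the residue field -/
noncomputable def av (K : Type) [Field K] (a b : ℤ) (v : HeightOneSpectrum (𝓞 K)) : ℤ :=
  (qv K v : ℤ) - Nat.card {z : (𝓞 K ⧸ v.asIdeal) × (𝓞 K ⧸ v.asIdeal) //
    z.2 ^ 2 = z.1 ^ 3 + (a : 𝓞 K ⧸ v.asIdeal) * z.1 + (b : 𝓞 K ⧸ v.asIdeal)}

open Classical in
/-- `F` is entire and is, for `Re s > 3/2`, the `L`-function of the product of the curves `E_{j i, e i}`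
over `K` without the Euler factors at the places dividing `2 · 3 · 5 · 7 · 17 · D` and the `e i` -/
def IsL {ι : Type} [Fintype ι] (K : Type) [Field K] (j : ι → Fin 3) (e : ι → ℤ) (D : ℤ)
    (F : ℂ → ℂ) : Prop :=
  Differentiable ℂ F ∧ ∀ s : ℂ, (3 : ℝ) / 2 < s.re →
    HasProd (fun v : HeightOneSpectrum (𝓞 K) =>
      if ((3570 * (∏ i, e i) * D : ℤ) : 𝓞 K) ∈ v.asIdeal then 1 else
        ∏ i, (1 - (av K (A (j i) (e i)) (B (j i) (e i)) v : ℂ) * (qv K v : ℂ) ^ (-s) +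
          (qv K v : ℂ) ^ (1 - 2 * s))⁻¹) (F s)

open Classical in
/-- the rank conjecture for the product `A` of the curves `E_{j i, e i}` over `K`, with the rank and the
order zero, and the finiteness of `Ш(A/K)[2^∞]`, the sum of the groups of the factors, which is killed
by `2 ^ r` -/
def BSDZero {ι : Type} [Fintype ι] (K : Type) [Field K] [NumberField K] (j : ι → Fin 3)
    (e : ι → ℤ) (D : ℤ) (r : ℕ) : Prop :=
  Finite (AK K j e) ∧ Module.finrank ℤ (AK K j e) = 0 ∧ (∃ F : ℂ → ℂ, IsL K j e D F) ∧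
    (∀ F : ℂ → ℂ, IsL K j e D F → analyticOrderAt F 1 = (Module.finrank ℤ (AK K j e) : ℕ∞)) ∧
    ∀ i, {y : Pool.Agent.TH841.NF.D.Sha (E K (j i) (e i)) | ∃ k : ℕ, (2 ^ k : ℕ) • y = 0}.Finite ∧
      ∀ (k : ℕ) (y : Pool.Agent.TH841.NF.D.Sha (E K (j i) (e i))), (2 ^ k : ℕ) • y = 0 →
        (2 ^ r : ℕ) • y = 0

/-- `A` is good over `K = ℚ(√d_1, …, √d_r)`: the curves `E_{j i, e_i ∏_{t ∈ T} d_t}` over `ℚ`, which are
the factors of the Weil restriction of `A` from `K` to `ℚ`, have finitely many rational points and no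
element of order two in the Tate-Shafarevich group -/
def Good {ι : Type} {r : ℕ} (d : Fin r → ℤ) (j : ι → Fin 3) (e : ι → ℤ) : Prop :=
  ∀ i, ∀ T : Finset (Fin r), RankZeroShaTwo (j i) (e i * ∏ t ∈ T, d t)

/-- **the rank conjecture for good products** -/
theorem bsd {ι : Type} [Fintype ι] {r : ℕ} {d : Fin r → ℤ} (hi : Independent d) {j : ι → Fin 3}
    {e : ι → ℤ} (he : ∀ i, e i ≠ 0) (hg : Good d j e) (K : Type) [Field K] [NumberField K]
    (hK : IsMultiquadratic d K) :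
    Module.finrank ℚ K = 2 ^ r ∧ BSDZero K j e (∏ t, d t) r := by
  classical
  have hd0 : ∀ t, d t ≠ 0 := by
    intro t h0
    refine hi {t} (Finset.singleton_nonempty t) ?_
    rw [Finset.prod_singleton, h0]
    exact ⟨0, rfl⟩
  obtain ⟨x, hx, hgen⟩ := hK
  have hdeg : Module.finrank ℚ K = 2 ^ r := by
    have := Pool.Agent.Y73.QMQ1.gal_of hx hgen
    rw [← IsGalois.card_aut_eq_finrank]
    exact Pool.Agent.Y73.QMQ1.card_gal hi hx hgen
  refine ⟨hdeg, ?_⟩
  have hf := fun i => field (j i) (he i) hd0 hi (hg i) K x hx hgen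
  have hs := fun i => shaK (j i) (he i) hd0 (hg i) K x hx hgen
  have hN : 3570 * (∏ i, e i) * (∏ t, d t) ≠ 0 :=
    mul_ne_zero (mul_ne_zero (by norm_num) (Finset.prod_ne_zero_iff.2 fun i _ => he i))
      (Finset.prod_ne_zero_iff.2 fun t _ => hd0 t)
  have hbad : ∀ i, ∀ v : HeightOneSpectrum (𝓞 K),
      ((2 * (4 * A (j i) (e i) ^ 3 + 27 * B (j i) (e i) ^ 2) * ∏ t, d t : ℤ) : 𝓞 K) ∈ v.asIdeal →
      ((3570 * (∏ i, e i) * (∏ t, d t) : ℤ) : 𝓞 K) ∈ v.asIdeal := by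
    intro i v hv
    have h1 := bad_of (j i) v hv
    obtain ⟨z, hz⟩ : (3570 * e i * ∏ t, d t) ∣ (3570 * (∏ i, e i) * (∏ t, d t)) :=
      mul_dvd_mul_right (mul_dvd_mul_left 3570 (Finset.dvd_prod_of_mem e (Finset.mem_univ i))) _
    rw [hz, Int.cast_mul]
    exact Ideal.mul_mem_right _ _ h1
  obtain ⟨F, hF, hF1⟩ := Pool.Agent.R494.AV.prodL (K := K)
    (a := fun i => A (j i) (e i)) (b := fun i => B (j i) (e i))
    (D := fun _ => ∏ t, d t) hN hbad (fun i => (hf i).1)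
  obtain ⟨h1, h2⟩ := Pool.Agent.R494.AV.rank_zero (K := K)
    (a := fun i => A (j i) (e i)) (b := fun i => B (j i) (e i)) fun i => (hf i).2
  have h2' : Module.finrank ℤ (AK K j e) = 0 := h2
  refine ⟨h1, h2', ⟨F, hF⟩, fun G hG => ?_, fun i => hs i⟩
  have h3 : G = F := Pool.Agent.R494.AV.unique (K := K) (a := fun i => A (j i) (e i))
    (b := fun i => B (j i) (e i)) (N := 3570 * (∏ i, e i) * (∏ t, d t)) hG hF
  rw [h2', h3]
  exact (hF.1.analyticAt 1).analyticOrderAt_eq_zero.2 hF1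

end Pool.Agent.N970.AVP
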