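import Pool.Agent.N970.AVP.Dens
import Pool.Agent.N809.JT.Tot

/-!
# Products of the three curves over quadratic fields: the proportion for every product

The total densities are the theorems `Pool.Agent.N809.JT.Tot` (helpers 809, 877, 963, 972, 975).
-/

set_option autoImplicit false

open Finset Filter

namespace Pool.Agent.N970.AVP

open Pool.Agent.N919.BS (NS NF Fund core)
open Pool.Agent.N809.JT (Tot R21)
open Pool.Agent.N963.JT (R15 R17)

/-- the proportion for the products in which exactly the curves `C_j`, `j ∈ S`, occur -/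
noncomputable def deltaS (S : Finset (Fin 3)) : ℝ :=
  if 1 ∈ S then
    if 0 ∈ S then
      (if 2 ∈ S then 8065 / 110592 else 433 / 1728) *
        ((∏' i : ℕ, (1 - (1 / 2 : ℝ) ^ (i + 1))) * ∏' i : ℕ, (1 - (1 / 2 : ℝ) ^ (2 * i + 1)))
    else if 2 ∈ S then
      2461 / 9216 *
        ((∏' i : ℕ, (1 - (1 / 2 : ℝ) ^ (i + 1))) * ∏' i : ℕ, (1 - (1 / 2 : ℝ) ^ (2 * i + 1)))
    else (∏' i : ℕ, (1 - (1 / 2 : ℝ) ^ (2 * i + 1))) / 2
  else
    (if 0 ∈ S then (if 2 ∈ S then 443 / 3072 else 1 / 2) else 137 / 256) *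
      ∏' i : ℕ, (1 - (1 / 2 : ℝ) ^ (i + 1))

theorem z0 (d : ℤ) : RankZeroShaTwo 0 d ↔ R15 d := rz_iff 0 d

theorem z1 (d : ℤ) : RankZeroShaTwo 1 d ↔ R17 d := rz_iff 1 d

theorem z2 (d : ℤ) : RankZeroShaTwo 2 d ↔ R21 d := rz_iff 2 d

theorem all_iff (S : Finset (Fin 3)) (d : ℤ) : (∀ j ∈ S, RankZeroShaTwo j d) ↔
    (0 ∈ S → R15 d) ∧ (1 ∈ S → R17 d) ∧ (2 ∈ S → R21 d) := by
  rw [← z0, ← z1, ← z2]
  constructor
  · intro h
    exact ⟨fun a => h 0 a, fun a => h 1 a, fun a => h 2 a⟩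
  · rintro ⟨h0, h1, h2⟩ j hj
    fin_cases j
    · exact h0 hj
    · exact h1 hj
    · exact h2 hj

/-- all the cases -/
theorem tot_S {N : (ℤ → Prop) → ℕ → ℕ} (T : Tot N) {S : Finset (Fin 3)} (hS : S.Nonempty) :
    Tendsto (fun X : ℕ => (N (fun d => ∀ j ∈ S, RankZeroShaTwo j d) X : ℝ) /
      (N (fun _ => True) X : ℝ)) atTop (nhds (deltaS S)) := by
  have e : (fun d => ∀ j ∈ S, RankZeroShaTwo j d) =
      fun d => (0 ∈ S → R15 d) ∧ (1 ∈ S → R17 d) ∧ (2 ∈ S → R21 d) :=
    funext fun d => propext (all_iff S d)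
  rw [e]
  have hη : Pool.Agent.N916.GB.eta = ∏' i : ℕ, (1 - (1 / 2 : ℝ) ^ (i + 1)) := rfl
  have hc : Pool.Agent.Y703.CQ.c2 = ∏' i : ℕ, (1 - (1 / 2 : ℝ) ^ (2 * i + 1)) := rfl
  unfold deltaS
  rw [← hη, ← hc]
  by_cases h1 : (1 : Fin 3) ∈ S <;> by_cases h0 : (0 : Fin 3) ∈ S <;> by_cases h2 : (2 : Fin 3) ∈ S
  · simp only [h0, h1, h2, if_true, true_imp_iff]
    exact T.t3
  · simp only [h0, h1, h2, if_true, if_false, true_imp_iff, false_imp_iff, and_true]
    exact T.t1517
  · simp only [h0, h1, h2, if_true, if_false, true_imp_iff, false_imp_iff, true_and]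
    exact T.t1721
  · simp only [h0, h1, h2, if_true, if_false, true_imp_iff, false_imp_iff, true_and, and_true]
    exact T.t17
  · simp only [h0, h1, h2, if_true, if_false, true_imp_iff, false_imp_iff, true_and]
    exact T.t1521
  · simp only [h0, h1, h2, if_true, if_false, true_imp_iff, false_imp_iff, and_true]
    have e2 : (1 / 2 : ℝ) * Pool.Agent.N916.GB.eta = Pool.Agent.N916.GB.eta / 2 := by ring
    rw [e2]
    exact T.t15
  · simp only [h0, h1, h2, if_true, if_false, true_imp_iff, false_imp_iff, true_and]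
    exact T.t21
  · exfalso
    obtain ⟨j, hj⟩ := hS
    fin_cases j
    · exact h0 hj
    · exact h1 hj
    · exact h2 hj

theorem good_img {ι : Type} [Fintype ι] (j : ι → Fin 3) (D : ℤ) :
    Good (fun _ : Fin 1 => D) j (fun _ => 1) ↔
      ∀ k ∈ Finset.univ.image j, RankZeroShaTwo k D := by
  rw [good_quad]
  simp only [one_mul, mem_image, mem_univ, true_and]
  constructor
  · rintro h k ⟨i, rfl⟩
    exact (h i).2
  · intro h i
    exact ⟨rz_one _, h _ ⟨i, rfl⟩⟩

/-- **the proportion of the quadratic fields over which a product of the three curves is good** -/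
theorem dens_prod {ι : Type} [Fintype ι] [Nonempty ι] (T : Tot NF) (j : ι → Fin 3) :
    Tendsto (fun X : ℕ => (countQuad
      (fun D => Good (fun _ : Fin 1 => D) j (fun _ => 1)) X : ℝ) /
      (countQuad (fun _ => True) X : ℝ)) atTop (nhds (deltaS (Finset.univ.image j))) := by
  refine lim_quad (Q := fun d => ∀ k ∈ Finset.univ.image j, RankZeroShaTwo k d)
    (fun D hD => (good_img j D).trans ?_) (tot_S T ?_)
  · exact forall_congr' fun k => imp_congr Iff.rfl (rz_core k hD)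
  · obtain ⟨i⟩ := ‹Nonempty ι›
    exact ⟨j i, mem_image_of_mem j (mem_univ i)⟩

end Pool.Agent.N970.AVP
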