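import Pool.Agent.Y17.X.SelInf
import Pool.Agent.N970.AVP.Pq

/-!
# The `2 ^ ∞`-Selmer groups of the twists of the three curves
-/

set_option autoImplicit false

open Filter Topology

namespace Pool.Agent.N970.AVP

open Pool.Agent.TH841.SH.D (Sha Pruf)
open Pool.Agent.TH841.SH (IsR)
open Pool.Agent.Y17.X.SI (SelInf)
open Pool.Agent.N919.BS (NS NF Fund core)

/-- the sequence is zero -/
def ZeroSeq (W : WeierstrassCurve ℚ) : Prop :=
  (∀ x : TensorProduct ℤ W.toAffine.Point Pruf, x = 0) ∧ (∀ x : SelInf W, x = 0) ∧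
    ∀ (k : ℕ) (x : Sha W), (2 ^ k : ℕ) • x = 0 → x = 0

theorem isR_E {L : Type} [Field L] [Algebra ℚ L] [CharZero L] (j : Fin 3) {d : ℤ} (hd : d ≠ 0) :
    ∃ a b c : L, IsR ((E ℚ j d).baseChange L) a b c ∧ a ≠ b ∧ a ≠ c ∧ b ≠ c := by
  have hd0 : (d : L) ≠ 0 := by exact_mod_cast hd
  have hb : ∀ z : ℤ, algebraMap ℚ L ((z : ℤ) : ℚ) = (z : L) := fun z => map_intCast _ z
  have ne : ∀ u v : ℤ, u ≠ v → ((u : ℤ) : L) * (d : L) ≠ ((v : ℤ) : L) * (d : L) := by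
    intro u v huv h
    have h1 := mul_right_cancel₀ hd0 h
    exact huv (by exact_mod_cast h1)
  fin_cases j
  · refine ⟨((-21 : ℤ) : L) * d, ((-102 : ℤ) : L) * d, ((123 : ℤ) : L) * d, ⟨?_, ?_, ?_, ?_, ?_⟩,
      ne _ _ (by norm_num), ne _ _ (by norm_num), ne _ _ (by norm_num)⟩
    · exact map_zero _
    · refine (map_zero (algebraMap ℚ L)).trans ?_
      push_cast
      ring
    · exact map_zero _
    · refine (hb (-12987 * d ^ 2)).trans ?_
      push_cast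
      ring
    · refine (hb (-263466 * d ^ 3)).trans ?_
      push_cast
      ring
  · refine ⟨((-5 : ℤ) : L) * d, ((-6 : ℤ) : L) * d, ((11 : ℤ) : L) * d, ⟨?_, ?_, ?_, ?_, ?_⟩,
      ne _ _ (by norm_num), ne _ _ (by norm_num), ne _ _ (by norm_num)⟩
    · exact map_zero _
    · refine (map_zero (algebraMap ℚ L)).trans ?_
      push_cast
      ring
    · exact map_zero _
    · refine (hb (-91 * d ^ 2)).trans ?_
      push_cast
      ring
    · refine (hb (-330 * d ^ 3)).trans ?_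
      push_cast
      ring
  · refine ⟨((-6 : ℤ) : L) * d, ((75 : ℤ) : L) * d, ((-69 : ℤ) : L) * d, ⟨?_, ?_, ?_, ?_, ?_⟩,
      ne _ _ (by norm_num), ne _ _ (by norm_num), ne _ _ (by norm_num)⟩
    · exact map_zero _
    · refine (map_zero (algebraMap ℚ L)).trans ?_
      push_cast
      ring
    · exact map_zero _
    · refine (hb (-5211 * d ^ 2)).trans ?_
      push_cast
      ring
    · refine (hb (-31050 * d ^ 3)).trans ?_
      push_cast
      ring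

theorem si_iff (j : Fin 3) {d : ℤ} (hd : d ≠ 0) :
    (∀ x : SelInf (E ℚ j d), x = 0) ↔ RankZeroShaTwo j d := by
  obtain ⟨a, b, c, h, h1, h2, h3⟩ := isR_E (L := AlgebraicClosure ℚ) j hd
  obtain ⟨a', b', c', h', h1', h2', h3'⟩ := isR_E (L := ℚ) j hd
  rw [rz_iff]
  exact Pool.Agent.Y17.X.SI.selInf_iff h h1 h2 h3
    (Pool.Agent.Y17.X.SI.fg_of_three h' h1' h2' h3')

/-- **the sequence is zero if and only if its middle term is zero, if and only if the group of points is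
finite and `Ш` has no element of order two** -/
theorem zs_iff (j : Fin 3) {d : ℤ} (hd : d ≠ 0) :
    (ZeroSeq (E ℚ j d) ↔ ∀ x : SelInf (E ℚ j d), x = 0) ∧
      (ZeroSeq (E ℚ j d) ↔ RankZeroShaTwo j d) := by
  have h : ZeroSeq (E ℚ j d) ↔ ∀ x : SelInf (E ℚ j d), x = 0 := by
    refine ⟨fun h => h.2.1, fun h => ?_⟩
    have h0 := (si_iff j hd).1 h
    rw [rz_iff] at h0
    obtain ⟨h1, h2⟩ := h0
    have : Finite (E ℚ j d).toAffine.Point := h1
    exact ⟨Pool.Agent.Y17.X.SI.tensor_div_zero Pool.Agent.Y17.X.SI.pruf_div, h,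
      Pool.Agent.Y17.X.SI.pow_of_two h2⟩
  exact ⟨h, h.trans (si_iff j hd)⟩

/-- **the main theorem on the Selmer groups** -/
theorem mainS :
    (∀ (j : Fin 3) (d : ℤ), d ≠ 0 →
      (ZeroSeq (E ℚ j d) ↔ ∀ x : SelInf (E ℚ j d), x = 0) ∧
        (ZeroSeq (E ℚ j d) ↔ RankZeroShaTwo j d)) ∧
    (∀ S : Finset (Fin 3), S.Nonempty →
      Tendsto (fun X : ℕ => (NS (fun d => ∀ j ∈ S, ZeroSeq (E ℚ j d)) X : ℝ) /
        (NS (fun _ => True) X : ℝ)) atTop (nhds (deltaS S)) ∧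
      Tendsto (fun X : ℕ => (NF (fun d => ∀ j ∈ S, ZeroSeq (E ℚ j d)) X : ℝ) /
        (NF (fun _ => True) X : ℝ)) atTop (nhds (deltaS S))) ∧
    (∀ j : Fin 3,
      (∀ d : ℤ, Squarefree d → ZeroSeq (E ℚ j d) → rootProd j d = 1) ∧
      Tendsto (fun X : ℕ => (NS (fun d => ZeroSeq (E ℚ j d)) X : ℝ) /
        (NS (fun d => rootProd j d = 1) X : ℝ)) atTop (nhds (2 * delta j)) ∧
      Tendsto (fun X : ℕ => (NF (fun d => ZeroSeq (E ℚ j d)) X : ℝ) /
        (NF (fun d => rootProd j d = 1) X : ℝ)) atTop (nhds (2 * delta j))) ∧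
    (∀ (j : Fin 3) (D : ℤ), Fund D → D < 0 → Allowed j D →
      (ZeroSeq (E ℚ j D) ↔ NoOrderFour D)) ∧
    0.1443 < delta 0 ∧ delta 0 < 0.1445 ∧ 0.2096 < delta 1 ∧ delta 1 < 0.2098 ∧
      0.1544 < delta 2 ∧ delta 2 < 0.1547 := by
  obtain ⟨h1, h2, h3, h4, h5⟩ := mainP2
  refine ⟨fun j d hd => zs_iff j hd, fun S hS => ?_, fun j => ?_, fun j D hD h0 ha => ?_, h5⟩
  · have hc : ∀ d, Squarefree d → ((∀ j ∈ S, ZeroSeq (E ℚ j d)) ↔ ∀ j ∈ S, RankZeroShaTwo j d) :=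
      fun d hs => forall_congr' fun j => imp_congr Iff.rfl (zs_iff j hs.ne_zero).2
    obtain ⟨a, b⟩ := h3 S hS
    exact ⟨a.congr fun X => by rw [ns_congr hc X], b.congr fun X => by rw [nf_congr hc X]⟩
  · have hc : ∀ d, Squarefree d → (ZeroSeq (E ℚ j d) ↔ RankZeroShaTwo j d) :=
      fun d hs => (zs_iff j hs.ne_zero).2
    obtain ⟨-, -, a, b⟩ := h2 j
    exact ⟨fun d hs hz => (h1 j d hs ((hc d hs).1 hz)).1,
      a.congr fun X => by rw [ns_congr hc X], b.congr fun X => by rw [nf_congr hc X]⟩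
  · have hD0 : D ≠ 0 := by omega
    rw [(zs_iff j hD0).2]
    exact h4 j D hD h0 ha

end Pool.Agent.N970.AVP
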